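import Mathlib
import Pool.Agent.Helper26.OB.Fin3

/-!
# OS: skew products over étale maps. Definitions

`Φ(t, x) = (F(t), (φ_b(t; x_(π b)))_b)` on `A^m × (P^1)^k`: `F` an étale polynomial map, `φ_b(t; ·)` a rational function of
degree `d b` for every `t`, the coefficients `C` are polynomials in `t`.
-/

set_option autoImplicit false

namespace Pool.Agent.Helper26.OS

open MvPolynomial Pool.Agent.Helper61.TH Pool.Agent.Helper87.FK Pool.Agent.Helper26.OB

noncomputable section

section general

variable {ι R : Type} [Fintype ι] [DecidableEq ι] [CommRing R]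

/-- the value of a polynomial map -/
def evI (P : ι → MvPolynomial ι R) (y : ι → R) : ι → R := fun i => eval y (P i)

/-- the Jacobian matrix -/
def jacI (P : ι → MvPolynomial ι R) (y : ι → R) : Matrix ι ι R := Matrix.of fun i j => eval y (pderiv j (P i))

/-- application of a word of maps (the last letter acts first) -/
def run {s : ℕ} (P : Fin s → ι → MvPolynomial ι R) : List (Fin s) → (ι → R) → ι → R
  | [], y => y
  | a :: w, y => evI (P a) (run P w y)

/-- the system `Y ↦ (P_b (Y_(π b)))_b` -/
def sysI {k : ℕ} (P : Fin k → ι → MvPolynomial ι R) (π : Fin k → Fin k) (Y : Fin k → ι → R) : Fin k → ι → R :=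
  fun b => evI (P b) (Y (π b))

end general

variable {m k : ℕ} {d : Fin k → ℕ} {R : Type} [CommRing R]

/-- the coefficients at the point `t` of the base -/
def at' (C : Idx d → MvPolynomial (Fin m) R) (t : Fin m → R) : Idx d → R := fun q => eval t (C q)

/-- the letter `(t, x) ↦ (F(t), φ_a(t; x))` as a polynomial map on `A^m × A^2` -/
def PS (F : Fin m → MvPolynomial (Fin m) R) (C : Idx d → MvPolynomial (Fin m) R) (a : Fin k) :
    Fin m ⊕ Fin 2 → MvPolynomial (Fin m ⊕ Fin 2) R :=
  Sum.elim (fun i => rename Sum.inl (F i)) fun i => ∑ j : Fin (d a + 1),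
    rename Sum.inl (C ⟨a, (i, j)⟩) * X (Sum.inr 0) ^ (j : ℕ) * X (Sum.inr 1) ^ (d a - j)

/-- the skew product -/
def sysS (F : Fin m → MvPolynomial (Fin m) R) (C : Idx d → MvPolynomial (Fin m) R) (π : Fin k → Fin k)
    (z : (Fin m → R) × (Fin k → Fin 2 → R)) : (Fin m → R) × (Fin k → Fin 2 → R) :=
  (ev F z.1, fun b => ev (form (at' C z.1) b) (z.2 (π b)))

end

end Pool.Agent.Helper26.OS
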