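import Mathlib
import Pool.Agent.Helper26.OS.Defs

/-!
# OS: the dichotomy along an orbit without critical residues, for any polynomial maps (block EI)
-/

set_option autoImplicit false

namespace Pool.Agent.Helper26.OS

open MvPolynomial Pool.Agent.Helper86.DML Pool.Agent.Helper61.TH Pool.Agent.Helper87.FK Pool.Agent.Helper26.OB
open Pool.Agent.Helper26.FU (bd)

noncomputable section

set_option linter.unusedSectionVars false

section general

variable {ι R : Type} [Fintype ι] [DecidableEq ι] [CommRing R]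

/-- the composition along a word -/
def wordI {s : ℕ} (P : Fin s → ι → MvPolynomial ι R) : List (Fin s) → ι → MvPolynomial ι R
  | [] => fun i => X i
  | a :: w => fun i => bind₁ (wordI P w) (P a i)

omit [DecidableEq ι] in
theorem evI_bind (G : ι → MvPolynomial ι R) (P : MvPolynomial ι R) (x : ι → R) :
    eval x (bind₁ G P) = eval (evI G x) P := by
  rw [eval, eval₂Hom_bind₁]
  rfl

omit [DecidableEq ι] in
theorem evI_wordI {s : ℕ} (P : Fin s → ι → MvPolynomial ι R) (w : List (Fin s)) (y : ι → R) :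
    evI (wordI P w) y = run P w y := by
  induction w with
  | nil =>
    funext i
    exact eval_X i
  | cons a w ih =>
    funext i
    change eval y (bind₁ (wordI P w) (P a i)) = eval (run P w y) (P a i)
    rw [evI_bind, ih]

theorem pderiv_bindI (G : ι → MvPolynomial ι R) (P : MvPolynomial ι R)
    (j : ι) : pderiv j (bind₁ G P) = ∑ i, bind₁ G (pderiv i P) * pderiv j (G i) := by
  induction P using MvPolynomial.induction_on with
  | C a => simp
  | add p q hp hq =>
    simp only [map_add, hp, hq, add_mul, Finset.sum_add_distrib]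
  | mul_X p i hp =>
    rw [map_mul, bind₁_X_right, pderiv_mul, hp]
    have h1 : ∀ k, bind₁ G (pderiv k (p * X i)) * pderiv j (G k) =
        bind₁ G (pderiv k p) * pderiv j (G k) * G i +
          (if k = i then bind₁ G p * pderiv j (G i) else 0) := by
      intro k
      rw [pderiv_mul, map_add, map_mul, map_mul, bind₁_X_right, add_mul]
      congr 1
      · ring
      · rw [pderiv_X]
        by_cases hk : k = i
        · subst hk
          rw [Pi.single_eq_same, map_one, mul_one, if_pos rfl]
        · rw [Pi.single_eq_of_ne (Ne.symm hk), map_zero, mul_zero, zero_mul, if_neg hk]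
    simp only [h1]
    rw [Finset.sum_add_distrib, Finset.sum_ite_eq', if_pos (Finset.mem_univ _), Finset.sum_mul]

theorem jacI_comp (F G : ι → MvPolynomial ι R) (x : ι → R) :
    jacI (fun i => bind₁ G (F i)) x = jacI F (evI G x) * jacI G x := by
  ext i j
  rw [Matrix.mul_apply, jacI, Matrix.of_apply, pderiv_bindI, map_sum]
  refine Finset.sum_congr rfl fun l _ => ?_
  rw [map_mul, evI_bind]
  rfl

theorem jacI_id (x : ι → R) : jacI (fun i => (X i : MvPolynomial ι R)) x = 1 := by
  ext i j
  rw [jacI, Matrix.of_apply, pderiv_X, Matrix.one_apply]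
  by_cases h : i = j
  · subst h
    rw [Pi.single_eq_same, map_one, if_pos rfl]
  · rw [Pi.single_eq_of_ne h, map_zero, if_neg h]

omit [DecidableEq ι] in
theorem run_append {s : ℕ} (P : Fin s → ι → MvPolynomial ι R) (v w : List (Fin s)) (y : ι → R) :
    run P (v ++ w) y = run P v (run P w y) := by
  induction v with
  | nil => rfl
  | cons a v ih =>
    change evI (P a) (run P (v ++ w) y) = evI (P a) (run P v (run P w y))
    rw [ih]

/-- the Jacobian determinants of words along an orbit -/
theorem orbI {s : ℕ} {p : ℕ} [Fact p.Prime] (P : Fin s → ι → MvPolynomial ι ℂ) (τ : ℂ →+* PadicAlgCl p)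
    (Ad : Fin s → Prop) (y : ι → ℂ) (H : ∀ u : List (Fin s), (∀ a ∈ u, Ad a) →
      ∀ a, Ad a → ‖τ (jacI (P a) (run P u y)).det‖ = 1)
    (w : List (Fin s)) (hw : ∀ a ∈ w, Ad a) (m : ℕ) :
    ‖τ (jacI (wordI P w) ((evI (wordI P w))^[m] y)).det‖ = 1 := by
  have key : ∀ (v u : List (Fin s)), (∀ a ∈ v, Ad a) → (∀ a ∈ u, Ad a) →
      ‖τ (jacI (wordI P v) (run P u y)).det‖ = 1 := by
    intro v
    induction v with
    | nil =>
      intro u _ _
      change ‖τ (jacI (fun i => (X i : MvPolynomial ι ℂ)) (run P u y)).det‖ = 1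
      rw [jacI_id, Matrix.det_one, map_one, norm_one]
    | cons a v ih =>
      intro u hv hu
      have hv' : ∀ b ∈ v, Ad b := fun b hb => hv b (List.mem_cons_of_mem _ hb)
      change ‖τ (jacI (fun i => bind₁ (wordI P v) (P a i)) (run P u y)).det‖ = 1
      rw [jacI_comp, Matrix.det_mul, map_mul, norm_mul, ih u hv' hu, mul_one, evI_wordI, ← run_append]
      refine H (v ++ u) (fun b hb => ?_) a (hv a List.mem_cons_self)
      rcases List.mem_append.1 hb with h | h
      · exact hv' b h
      · exact hu b h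
  have hit : ∃ u : List (Fin s), (∀ a ∈ u, Ad a) ∧ (evI (wordI P w))^[m] y = run P u y := by
    induction m with
    | zero => exact ⟨[], fun a ha => absurd ha List.not_mem_nil, rfl⟩
    | succ m ih =>
      obtain ⟨u, hu, h⟩ := ih
      refine ⟨w ++ u, fun a ha => ?_, ?_⟩
      · rcases List.mem_append.1 ha with h | h
        · exact hw a h
        · exact hu a h
      · rw [Function.iterate_succ_apply', h, run_append, evI_wordI]
  obtain ⟨u, hu, h⟩ := hit
  rw [h]
  exact key w u hw hu

/-- the coefficients of the words lie in the ring generated by the coefficients -/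
theorem coeff_wordI_mem {s : ℕ} {S : Type} [CommRing S] (T : Subring S) (f : R →+* S)
    (P : Fin s → ι → MvPolynomial ι R) (hP : ∀ a i t, f (coeff t (P a i)) ∈ T) (w : List (Fin s)) (i : ι)
    (t : ι →₀ ℕ) : f (coeff t (wordI P w i)) ∈ T := by
  have key : ∀ (w : List (Fin s)) (i : ι), map f (wordI P w i) ∈ (Set.range (map (σ := ι) T.subtype)) := by
    intro w
    induction w with
    | nil =>
      intro i
      refine ⟨X i, ?_⟩
      change map T.subtype (X i) = map f (X i)
      rw [map_X, map_X]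
    | cons a w ih =>
      intro i
      choose Q hQ using ih
      have h1 : map f (P a i) ∈ Set.range (map (σ := ι) T.subtype) := by
        rw [mem_range_map_iff_coeffs_subset]
        intro c hc
        rw [Finset.mem_coe, mem_coeffs_iff] at hc
        obtain ⟨n, hn, rfl⟩ := hc
        rw [coeff_map]
        exact ⟨⟨_, hP a i n⟩, rfl⟩
      obtain ⟨P', hP'⟩ := h1
      refine ⟨bind₁ Q P', ?_⟩
      change map T.subtype (bind₁ Q P') = map f (bind₁ (wordI P w) (P a i))
      rw [map_bind₁, map_bind₁, hP']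
      congr 2
      funext j
      exact hQ j
  obtain ⟨Q, hQ⟩ := key w i
  rw [← coeff_map, ← hQ, coeff_map]
  exact (coeff t Q).2

end general

section transport

variable {ι : Type} [Fintype ι] [DecidableEq ι] {n : ℕ} (e : ι ≃ Fin n)

/-- transport of a polynomial map to standard variables -/
def tr {R : Type} [CommRing R] (W : ι → MvPolynomial ι R) : Fin n → MvPolynomial (Fin n) R :=
  fun i => rename e (W (e.symm i))

omit [Fintype ι] [DecidableEq ι] in
theorem pmap_tr {R : Type} [CommRing R] (W : ι → MvPolynomial ι R) (y : ι → R) :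
    pmap (tr e W) (y ∘ e.symm) = evI W y ∘ e.symm := by
  funext i
  change eval (y ∘ e.symm) (rename e (W (e.symm i))) = eval y (W (e.symm i))
  rw [eval_rename]
  congr 2
  funext j
  simp

omit [Fintype ι] [DecidableEq ι] in
theorem pmap_tr_iter {R : Type} [CommRing R] (W : ι → MvPolynomial ι R) (y : ι → R) (m : ℕ) :
    (pmap (tr e W))^[m] (y ∘ e.symm) = (evI W)^[m] y ∘ e.symm := by
  induction m with
  | zero => rfl
  | succ m ih => rw [Function.iterate_succ_apply', ih, pmap_tr, Function.iterate_succ_apply']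

theorem det_tr {R : Type} [CommRing R] (W : ι → MvPolynomial ι R) (y : ι → R) :
    (Matrix.of fun i j => eval (y ∘ e.symm) (pderiv j (tr e W i))).det = (jacI W y).det := by
  rw [← Matrix.det_reindex_self e (jacI W y)]
  congr 1
  ext i j
  rw [Matrix.of_apply, Matrix.reindex_apply, Matrix.submatrix_apply, jacI, Matrix.of_apply, tr]
  have h1 : pderiv j (rename e (W (e.symm i))) = rename e (pderiv (e.symm j) (W (e.symm i))) := by
    conv_lhs => rw [← e.apply_symm_apply j]
    exact pderiv_rename e.injective _ _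
  rw [h1, eval_rename]
  congr 2
  funext l
  simp

end transport

/-- the dichotomy for product actions -/
theorem dichI {ι : Type} [Fintype ι] [DecidableEq ι] {k : ℕ} (W : Fin k → ι → MvPolynomial ι ℂ) (p : ℕ)
    [Fact p.Prime] (hp3 : 3 ≤ p) (τ : ℂ →+* PadicAlgCl p) (hW : ∀ b i s, ‖τ (coeff s (W b i))‖ ≤ 1)
    (Y : Fin k → ι → ℂ) (hY : ∀ b i, ‖τ (Y b i)‖ ≤ 1)
    (hJ : ∀ b m, ‖τ (jacI (W b) ((evI (W b))^[m] (Y b))).det‖ = 1) :
    ∃ N₀ Q : ℕ, 1 ≤ Q ∧ ∀ (G : MvPolynomial (Fin k × ι) ℂ) (r : ℕ),
      {m | eval (fun q => (evI (W q.1))^[N₀ + r + Q * m] (Y q.1) q.2) G = 0}.Finite ∨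
      ∀ m, eval (fun q => (evI (W q.1))^[N₀ + r + Q * m] (Y q.1) q.2) G = 0 := by
  classical
  set n := Fintype.card ι with hn
  let e : ι ≃ Fin n := Fintype.equivFin ι
  let S₀ : Set (PadicAlgCl p) := (Set.range fun q : Fin k × ι => τ (Y q.1 q.2)) ∪
    ⋃ q : Fin k × ι, (fun s => τ (coeff s (W q.1 q.2))) '' ((W q.1 q.2).support : Set (ι →₀ ℕ))
  have hS₀ : S₀.Finite := (Set.finite_range _).union
    (Set.finite_iUnion fun q => (W q.1 q.2).support.finite_toSet.image _)
  let L : IntermediateField ℚ_[p] (PadicAlgCl p) := IntermediateField.adjoin ℚ_[p] S₀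
  have hLfin : FiniteDimensional ℚ_[p] L := by
    have : Finite S₀ := hS₀.to_subtype
    exact IntermediateField.finiteDimensional_adjoin fun x _ =>
      (Algebra.IsAlgebraic.isAlgebraic x).isIntegral
  have hLfin' : FiniteDimensional ℚ_[p] L.toSubalgebra := hLfin
  have hYL : ∀ b i, τ (Y b i) ∈ L.toSubalgebra := fun b i =>
    IntermediateField.subset_adjoin _ _ (Or.inl ⟨(b, i), rfl⟩)
  have hWL : ∀ b i s, τ (coeff s (W b i)) ∈ L.toSubalgebra := by
    intro b i s
    by_cases hs : coeff s (W b i) = 0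
    · rw [hs, map_zero]
      exact zero_mem _
    · exact IntermediateField.subset_adjoin _ _ (Or.inr (Set.mem_iUnion.2
        ⟨(b, i), s, mem_support_iff.2 hs, rfl⟩))
  set D := Module.finrank ℚ_[p] L.toSubalgebra with hD
  let W' : Fin k → Fin n → MvPolynomial (Fin n) (PadicAlgCl p) := fun b i => map τ (tr e (W b) i)
  let dm : ℕ := (∑ b, ∑ i, (W' b i).totalDegree) + 1
  have hdm : ∀ b i, (W' b i).totalDegree ≤ dm := by
    intro b i
    have h1 : (W' b i).totalDegree ≤ ∑ i, (W' b i).totalDegree :=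
      Finset.single_le_sum (f := fun i => (W' b i).totalDegree) (fun _ _ => Nat.zero_le _)
        (Finset.mem_univ i)
    have h2 : ∑ i, (W' b i).totalDegree ≤ ∑ b, ∑ i, (W' b i).totalDegree :=
      Finset.single_le_sum (f := fun b => ∑ i, (W' b i).totalDegree) (fun _ _ => Nat.zero_le _)
        (Finset.mem_univ b)
    omega
  -- the coefficients
  have hcoe : ∀ b i s, ∃ s', coeff s (W' b i) = τ (coeff s' (W b (e.symm i))) ∨ coeff s (W' b i) = 0 := by
    intro b i s
    by_cases h : ∃ s', Finsupp.mapDomain e s' = s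
    · obtain ⟨s', rfl⟩ := h
      refine ⟨s', Or.inl ?_⟩
      change coeff _ (map τ (rename e (W b (e.symm i)))) = _
      rw [coeff_map, coeff_rename_mapDomain _ e.injective]
    · refine ⟨0, Or.inr ?_⟩
      change coeff _ (map τ (rename e (W b (e.symm i)))) = _
      rw [coeff_map, coeff_rename_eq_zero, map_zero]
      intro u hu
      exact absurd ⟨u, hu⟩ h
  have hW1 : ∀ b i s, ‖coeff s (W' b i)‖ ≤ 1 := by
    intro b i s
    obtain ⟨s', h | h⟩ := hcoe b i s
    · rw [h]
      exact hW _ _ _
    · rw [h, norm_zero]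
      exact zero_le_one
  have hW2 : ∀ b i s, coeff s (W' b i) ∈ L.toSubalgebra := by
    intro b i s
    obtain ⟨s', h | h⟩ := hcoe b i s
    · rw [h]
      exact hWL _ _ _
    · rw [h]
      exact zero_mem _
  have hit : ∀ b m, (pmap (W' b))^[m] (fun i => τ (Y b (e.symm i))) =
      fun i => τ ((evI (W b))^[m] (Y b) (e.symm i)) := by
    intro b m
    have h1 := Pool.Agent.Helper87.LD.pmap_map_iterate τ (tr e (W b)) m (Y b ∘ e.symm)
    rw [pmap_tr_iter] at h1
    exact h1
  refine ⟨bd (k * n) p D, (bd (k * n) p D).factorial * (bd (k * n) p D).factorial,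
    Nat.mul_pos (Nat.factorial_pos _) (Nat.factorial_pos _), fun G r => ?_⟩
  let G' : MvPolynomial (Fin k × Fin n) (PadicAlgCl p) := map τ (rename (fun q : Fin k × ι => (q.1, e q.2)) G)
  obtain ⟨K, hK⟩ := main_orb hp3 k n dm D (Nat.le_add_left 1 _) G'.support
  have h1 := hK L.toSubalgebra le_rfl W' hW1 hW2 hdm (fun b i => τ (Y b (e.symm i)))
    (fun b i => hY _ _) (fun b i => hYL _ _) (by
      intro b m
      rw [hit]
      have h2 := hJ b m
      rw [← det_tr e, RingHom.map_det] at h2
      have h3 : (τ.mapMatrix (Matrix.of fun i j =>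
          eval ((evI (W b))^[m] (Y b) ∘ e.symm) (pderiv j (tr e (W b) i)))) =
          Matrix.of fun i j => eval (fun i => τ ((evI (W b))^[m] (Y b) (e.symm i))) (pderiv j (W' b i)) := by
        ext i j
        rw [RingHom.mapMatrix_apply, Matrix.map_apply, Matrix.of_apply, Matrix.of_apply]
        change _ = eval _ (pderiv j (map τ (tr e (W b) i)))
        rw [pderiv_map, eval_map, show (fun i => τ ((evI (W b))^[m] (Y b) (e.symm i))) =
          τ ∘ ((evI (W b))^[m] (Y b) ∘ e.symm) from rfl, eval₂_comp]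
      rw [h3] at h2
      exact h2) G' subset_rfl r
  have hiff : ∀ m, eval (fun c : Fin k × Fin n =>
      (pmap (W' c.1))^[m] (fun i => τ (Y c.1 (e.symm i))) c.2) G' = 0 ↔
      eval (fun q => (evI (W q.1))^[m] (Y q.1) q.2) G = 0 := by
    intro m
    simp only [hit]
    have h4 : eval (fun c : Fin k × Fin n => τ ((evI (W c.1))^[m] (Y c.1) (e.symm c.2))) G' =
        τ (eval (fun q => (evI (W q.1))^[m] (Y q.1) q.2) G) := by
      change eval _ (map τ (rename _ G)) = _
      rw [eval_map, eval₂_rename, eval₂_comp]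
      congr 1
      funext q
      change τ ((evI (W q.1))^[m] (Y q.1) (e.symm (e q.2))) = _
      rw [e.symm_apply_apply]
      rfl
    rw [h4, map_eq_zero]
  simp only [hiff] at h1
  rcases h1 with h1 | h1
  · exact Or.inl (Set.finite_of_encard_le_coe h1)
  · exact Or.inr h1

section system

variable {ι : Type} [Fintype ι] {k : ℕ}

theorem iterI (P : Fin k → ι → MvPolynomial ι ℂ) (π : Fin k → Fin k) (Y : Fin k → ι → ℂ) (n : ℕ) (b : Fin k) :
    (sysI P π)^[n] Y b = run P (wd52 id π n b) (Y (π^[n] b)) := by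
  induction n generalizing b with
  | zero => rfl
  | succ n ih =>
    rw [Function.iterate_succ_apply']
    change evI (P b) ((sysI P π)^[n] Y (π b)) = _
    rw [ih, wd52, ← Function.iterate_succ_apply]
    rfl

theorem iter_fixI (P : Fin k → ι → MvPolynomial ι ℂ) (π : Fin k → Fin k) (Y : Fin k → ι → ℂ) (L : ℕ) (M : ℕ)
    (b : Fin k) (hb : π^[L] b = b) :
    (sysI P π)^[L * M] Y b = (evI (wordI P (wd52 id π L b)))^[M] (Y b) := by
  induction M with
  | zero => rfl
  | succ M ih =>
    rw [Nat.mul_succ, Nat.add_comm, Function.iterate_add_apply, iterI, hb, ih, Function.iterate_succ_apply',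
      evI_wordI]

end system

/-- **EI**: the dichotomy along an orbit without critical residues, for any polynomial maps -/
theorem engI {ι : Type} [Fintype ι] [DecidableEq ι] {k : ℕ} (P : Fin k → ι → MvPolynomial ι ℂ) (p : ℕ)
    [Fact p.Prime] (hp3 : 3 ≤ p) (τ : ℂ →+* PadicAlgCl p) (hP : ∀ b i s, ‖τ (coeff s (P b i))‖ ≤ 1)
    (π : Fin k → Fin k) (Y : Fin k → ι → ℂ) (hY : ∀ b i, ‖τ (Y b i)‖ ≤ 1)
    (H : ∀ b (u : List (Fin k)), (∀ a ∈ u, Adm π a b) → ∀ a, Adm π a b →
      ‖τ (jacI (P a) (run P u (Y b))).det‖ = 1)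
    (V : Set (MvPolynomial (Fin k × ι) ℂ)) : ∃ S : Finset (ℕ × ℕ),
      {m : ℕ | ∀ G ∈ V, eval (fun q => (sysI P π)^[m] Y q.1 q.2) G = 0} =
        {m | ∃ q ∈ S, ∃ j, m = q.1 + q.2 * j} := by
  classical
  set L := k.factorial with hL
  have hL0 : 0 < L := Nat.factorial_pos k
  let W : Fin k → ι → MvPolynomial ι ℂ := fun b => wordI P (wp id π b)
  have hW : ∀ b i s, ‖τ (coeff s (W b i))‖ ≤ 1 := by
    intro b i s
    exact mem_Oc.1 (coeff_wordI_mem (Oc p).toSubring τ P (fun a i t => mem_Oc.2 (hP a i t)) (wp id π b) i s)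
  obtain ⟨N₀, Q, hQ, hd⟩ := dichI W p hp3 τ hW Y hY fun b m =>
    orbI P τ (fun a => Adm π a b) (Y b) (H b) (wp id π b) (fun a ha => adm_wp π b a ha) m
  have hd1 : ∀ (G : MvPolynomial (Fin k × ι) ℂ) (r : ℕ),
      {m | eval (fun q => (sysI P π)^[L * (1 + N₀) + r + L * Q * m] Y q.1 q.2) G = 0}.Finite ∨
      ∀ m, eval (fun q => (sysI P π)^[L * (1 + N₀) + r + L * Q * m] Y q.1 q.2) G = 0 := by
    intro G r
    obtain ⟨r₁, r₂, hr₁, hr⟩ : ∃ r₁ r₂, r₁ < L ∧ r = L * r₂ + r₁ :=
      ⟨r % L, r / L, Nat.mod_lt _ hL0, (Nat.div_add_mod r L).symm⟩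
    let e : Fin k → Fin k := fun b => π^[L + r₁] b
    have hfix : ∀ b, π^[L] (e b) = e b := by
      intro b
      have h1 : e b = π^[L] (π^[r₁] b) := by
        change π^[L + r₁] b = _
        rw [← Function.iterate_add_apply]
      rw [h1]
      exact idem52 π _
    let G' : MvPolynomial (Fin k × ι) ℂ :=
      bind₁ (fun q : Fin k × ι => rename (fun j => (e q.1, j)) (wordI P (wd52 id π (L + r₁) q.1) q.2)) G
    have key : ∀ M, eval (fun q => (sysI P π)^[L * (M + 1) + r₁] Y q.1 q.2) G =
        eval (fun q : Fin k × ι => (evI (W q.1))^[M] (Y q.1) q.2) G' := by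
      intro M
      have h1 : eval (fun q : Fin k × ι => (evI (W q.1))^[M] (Y q.1) q.2) G' =
          eval (fun q : Fin k × ι => eval (fun q : Fin k × ι => (evI (W q.1))^[M] (Y q.1) q.2)
            (rename (fun j => (e q.1, j)) (wordI P (wd52 id π (L + r₁) q.1) q.2))) G := by
        change eval _ (bind₁ _ G) = _
        rw [eval, eval₂Hom_bind₁]
        rfl
      rw [h1]
      congr 2
      funext q
      have e1 : L * (M + 1) + r₁ = (L + r₁) + L * M := by ring
      have e2 : W (e q.1) = wordI P (wd52 id π L (e q.1)) := by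
        change wordI P (wp id π (e q.1)) = _
        rw [wp, if_pos (hfix q.1)]
      rw [e1, Function.iterate_add_apply, iterI, iter_fixI P π Y L M _ (hfix q.1), eval_rename]
      change _ = eval (fun j => (evI (W (e q.1)))^[M] (Y (e q.1)) j) _
      rw [e2, ← evI_wordI]
      rfl
    have e2 : ∀ m, L * (1 + N₀) + r + L * Q * m = L * ((N₀ + r₂ + Q * m) + 1) + r₁ := by
      intro m
      rw [hr]
      ring
    simp only [e2, key]
    exact hd G' r₂
  refine Pool.Agent.Helper26.FD.ap_of_dich _ (Q := L * Q) (Nat.mul_pos hL0 hQ) (n₀ := L * (1 + N₀)) fun r => ?_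
  by_cases hall : ∀ G ∈ V, ∀ m, eval (fun q => (sysI P π)^[L * (1 + N₀) + r + L * Q * m] Y q.1 q.2) G = 0
  · right
    intro m G hGV
    exact hall G hGV m
  · left
    push Not at hall
    obtain ⟨G, hGV, m, hm⟩ := hall
    rcases hd1 G r with h2 | h2
    · exact h2.subset fun m' hm' => hm' G hGV
    · exact absurd (h2 m) hm

end

end Pool.Agent.Helper26.OS
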