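import Mathlib
import Pool.Agent.Helper26.OS.Eng
import Pool.Agent.Helper83.OS.V
import Pool.Agent.Helper10.OS.CR
import Pool.Agent.Helper26.OB.Fin3

/-!
# OS: residues along the orbit
-/

set_option autoImplicit false

namespace Pool.Agent.Helper26.OS

open MvPolynomial Pool.Agent.Helper61.TH Pool.Agent.Helper87.FK Pool.Agent.Helper26.OB

noncomputable section

section fixed

variable {p : ℕ} [hp : Fact p.Prime] (τ : ℂ →+* PadicAlgCl p) (σ : kk p →+* kk p)

/-- the integral numbers whose residues are fixed by `σ` -/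
def Sf : Subring ℂ := (RingHom.eqLocus (σ.comp (rh τ)) (rh τ)).map (Ot τ).subtype

theorem mem_Sf {z : ℂ} : z ∈ Sf τ σ ↔ ‖τ z‖ ≤ 1 ∧ σ (rd τ z) = rd τ z := by
  constructor
  · rintro ⟨w, hw, rfl⟩
    refine ⟨(mem_Ot τ).1 w.2, ?_⟩
    change σ (rd τ (w : ℂ)) = rd τ (w : ℂ)
    rw [rd_coe]
    exact hw
  · rintro ⟨h1, h2⟩
    refine ⟨⟨z, (mem_Ot τ).2 h1⟩, ?_, rfl⟩
    change σ (rh τ ⟨z, (mem_Ot τ).2 h1⟩) = rh τ ⟨z, (mem_Ot τ).2 h1⟩
    rw [← rd_coe]
    exact h2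

end fixed

section scale

variable {m k : ℕ} {d : Fin k → ℕ}

theorem ev_form (c : Idx d → ℂ) (a : Fin k) (x : Fin 2 → ℂ) (i : Fin 2) :
    ev (form c a) x i = ∑ j : Fin (d a + 1), c ⟨a, (i, j)⟩ * x 0 ^ (j : ℕ) * x 1 ^ (d a - j) := by
  rw [ev, form, map_sum]
  refine Finset.sum_congr rfl fun j _ => ?_
  rw [map_mul, map_mul, map_pow, map_pow, eval_X, eval_X, eval_C]

theorem ev_form_smul (c : Idx d → ℂ) (a : Fin k) (l : ℂ) (x : Fin 2 → ℂ) :
    ev (form c a) (fun i => l * x i) = fun i => l ^ d a * ev (form c a) x i := by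
  funext i
  rw [ev_form, ev_form, Finset.mul_sum]
  refine Finset.sum_congr rfl fun j _ => ?_
  have h1 : l ^ d a = l ^ (j : ℕ) * l ^ (d a - j) := by
    rw [← pow_add]
    congr 1
    have := j.2
    omega
  rw [mul_pow, mul_pow, h1]
  ring

theorem sysS_scale (F : Fin m → MvPolynomial (Fin m) ℂ) (C : Idx d → MvPolynomial (Fin m) ℂ) (π : Fin k → Fin k)
    (t : Fin m → ℂ) (α : Fin k → Fin 2 → ℂ) (l : Fin k → ℂ) (hl : ∀ b, l b ≠ 0) (n : ℕ) :
    ∃ l' : Fin k → ℂ, (∀ b, l' b ≠ 0) ∧ (sysS F C π)^[n] (t, fun b i => l b * α b i) =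
      (((sysS F C π)^[n] (t, α)).1, fun b i => l' b * ((sysS F C π)^[n] (t, α)).2 b i) := by
  induction n with
  | zero => exact ⟨l, hl, rfl⟩
  | succ n ih =>
    obtain ⟨l', hl', h⟩ := ih
    refine ⟨fun b => l' (π b) ^ d b, fun b => pow_ne_zero _ (hl' _), ?_⟩
    rw [Function.iterate_succ_apply', Function.iterate_succ_apply', h]
    refine Prod.ext rfl ?_
    funext b
    exact ev_form_smul _ b (l' (π b)) (((sysS F C π)^[n] (t, α)).2 (π b))

/-- multihomogeneity in the second group of variables -/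
def MH (G : MvPolynomial (Fin m ⊕ Fin k × Fin 2) ℂ) : Prop :=
  ∃ g : Fin k → ℕ, ∀ s ∈ G.support, ∀ b, ∑ i, s (Sum.inr (b, i)) = g b

theorem eval_MH {G : MvPolynomial (Fin m ⊕ Fin k × Fin 2) ℂ} {g : Fin k → ℕ}
    (hG : ∀ s ∈ G.support, ∀ b, ∑ i, s (Sum.inr (b, i)) = g b) (t : Fin m → ℂ) (l : Fin k → ℂ)
    (x : Fin k → Fin 2 → ℂ) :
    eval (Sum.elim t fun q => l q.1 * x q.1 q.2) G = (∏ b, l b ^ g b) * eval (Sum.elim t fun q => x q.1 q.2) G := by
  rw [eval_eq', eval_eq', Finset.mul_sum]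
  refine Finset.sum_congr rfl fun s hs => ?_
  rw [Fintype.prod_sum_type, Fintype.prod_sum_type]
  simp only [Sum.elim_inl, Sum.elim_inr]
  have h1 : ∏ q : Fin k × Fin 2, (l q.1 * x q.1 q.2) ^ s (Sum.inr q) =
      (∏ b, l b ^ g b) * ∏ q : Fin k × Fin 2, x q.1 q.2 ^ s (Sum.inr q) := by
    simp only [mul_pow, Finset.prod_mul_distrib]
    congr 1
    rw [Fintype.prod_prod_type]
    refine Finset.prod_congr rfl fun b _ => ?_
    change ∏ y, l b ^ s (Sum.inr (b, y)) = l b ^ g b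
    rw [Finset.prod_pow_eq_pow_sum, hG s hs b]
  rw [h1]
  ring

theorem set_scale (F : Fin m → MvPolynomial (Fin m) ℂ) (C : Idx d → MvPolynomial (Fin m) ℂ) (π : Fin k → Fin k)
    (t : Fin m → ℂ) (α : Fin k → Fin 2 → ℂ) (l : Fin k → ℂ) (hl : ∀ b, l b ≠ 0) (n : ℕ)
    (G : MvPolynomial (Fin m ⊕ Fin k × Fin 2) ℂ) (hG : MH G) :
    eval (Sum.elim ((sysS F C π)^[n] (t, fun b i => l b * α b i)).1 fun q =>
        ((sysS F C π)^[n] (t, fun b i => l b * α b i)).2 q.1 q.2) G = 0 ↔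
      eval (Sum.elim ((sysS F C π)^[n] (t, α)).1 fun q => ((sysS F C π)^[n] (t, α)).2 q.1 q.2) G = 0 := by
  obtain ⟨g, hg⟩ := hG
  obtain ⟨l', hl', h⟩ := sysS_scale F C π t α l hl n
  rw [h]
  rw [eval_MH hg _ l' ((sysS F C π)^[n] (t, α)).2]
  constructor
  · intro h5
    exact (mul_eq_zero.1 h5).resolve_left (Finset.prod_ne_zero_iff.2 fun b _ => pow_ne_zero _ (hl' b))
  · intro h5
    rw [h5, mul_zero]

/-- the fibre maps are polynomials: the denominators are `1` -/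
def Pol (C : Idx d → MvPolynomial (Fin m) ℂ) : Prop :=
  ∀ (a : Fin k) (j : Fin (d a + 1)), C ⟨a, (1, j)⟩ = if (j : ℕ) = 0 then 1 else 0

theorem ev_pol {C : Idx d → MvPolynomial (Fin m) ℂ} (hC : Pol C) (t : Fin m → ℂ) (a : Fin k) (x : Fin 2 → ℂ) :
    ev (form (at' C t) a) x 1 = x 1 ^ d a := by
  rw [ev_form, Finset.sum_eq_single (0 : Fin (d a + 1))]
  · change eval t (C ⟨a, (1, 0)⟩) * x 0 ^ ((0 : Fin (d a + 1)) : ℕ) * x 1 ^ (d a - ((0 : Fin (d a + 1)) : ℕ)) = _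
    rw [hC, if_pos (Fin.val_zero _), map_one, Fin.val_zero, pow_zero, one_mul, one_mul, Nat.sub_zero]
  · intro j _ hj
    change eval t (C ⟨a, (1, j)⟩) * _ * _ = _
    rw [hC, if_neg (fun h => hj (Fin.ext (h.trans (Fin.val_zero _).symm))), map_zero, zero_mul, zero_mul]
  · intro h
    exact absurd (Finset.mem_univ _) h

/-- the blocks of the iterates -/
theorem sysS_iter (F : Fin m → MvPolynomial (Fin m) ℂ) (C : Idx d → MvPolynomial (Fin m) ℂ) (π : Fin k → Fin k)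
    (t : Fin m → ℂ) (β : Fin k → Fin 2 → ℂ) (n : ℕ) (b : Fin k) :
    (sysI (PS F C) π)^[n] (fun b => Sum.elim t (β b)) b =
      Sum.elim ((sysS F C π)^[n] (t, β)).1 (((sysS F C π)^[n] (t, β)).2 b) := by
  induction n generalizing b with
  | zero => rfl
  | succ n ih =>
    rw [Function.iterate_succ_apply', Function.iterate_succ_apply']
    change evI (PS F C b) ((sysI (PS F C) π)^[n] (fun b => Sum.elim t (β b)) (π b)) = _
    rw [ih, Pool.Agent.Helper83.OS.evS]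
    rfl

theorem base_iter (F : Fin m → MvPolynomial (Fin m) ℂ) (C : Idx d → MvPolynomial (Fin m) ℂ) (π : Fin k → Fin k)
    (t : Fin m → ℂ) (β : Fin k → Fin 2 → ℂ) (n : ℕ) :
    (sysI (fun _ : Fin 1 => F) id)^[n] (fun _ => t) 0 = ((sysS F C π)^[n] (t, β)).1 := by
  induction n with
  | zero => rfl
  | succ n ih =>
    rw [Function.iterate_succ_apply', Function.iterate_succ_apply']
    change evI F ((sysI (fun _ : Fin 1 => F) id)^[n] (fun _ => t) 0) = _
    rw [ih]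
    rfl

end scale

section normal

variable {p : ℕ} [hp : Fact p.Prime] (τ : ℂ →+* PadicAlgCl p)

/-- the reduction of a point of the projective line -/
def rp (x : Fin 2 → ℂ) : Option (kk p) :=
  open Classical in if x 1 ≠ 0 ∧ ‖τ (x 0 / x 1)‖ ≤ 1 then some (rd τ (x 0 / x 1)) else none

/-- primitive coordinates -/
theorem exists_prim (x : Fin 2 → ℂ) (hx : x ≠ 0) : ∃ (β : Fin 2 → ℂ) (l : ℂ), l ≠ 0 ∧ (x = fun i => l * β i) ∧
    (∀ i, ‖τ (β i)‖ ≤ 1) ∧ (fun i => rd τ (β i)) ≠ 0 ∧ pr (fun i => rd τ (β i)) = rp τ x := by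
  by_cases hb' : x 1 ≠ 0 ∧ ‖τ (x 0 / x 1)‖ ≤ 1
  · refine ⟨![x 0 / x 1, 1], x 1, hb'.1, ?_, ?_, ?_, ?_⟩
    · funext i
      fin_cases i
      · change x 0 = x 1 * (x 0 / x 1)
        rw [mul_div_cancel₀ _ hb'.1]
      · change x 1 = x 1 * 1
        rw [mul_one]
    · intro i
      fin_cases i
      · exact hb'.2
      · change ‖τ 1‖ ≤ 1
        rw [map_one, norm_one]
    · intro h0
      have h2 := congrFun h0 1
      change rd τ 1 = 0 at h2
      rw [rd_one] at h2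
      exact one_ne_zero h2
    · rw [rp, if_pos hb', pr_one]
      · rfl
      · change rd τ 1 = 1
        exact rd_one τ
  · have h3 : x 0 ≠ 0 ∧ x 1 = x 0 * (x 0 / x 1)⁻¹ ∧ ‖τ (x 0 / x 1)⁻¹‖ < 1 := by
      by_cases h1 : x 1 = 0
      · refine ⟨fun h0 => hx ?_, ?_, ?_⟩
        · funext i
          fin_cases i
          · exact h0
          · exact h1
        · rw [h1, div_zero, inv_zero, mul_zero]
        · rw [h1, div_zero, inv_zero, map_zero, norm_zero]
          exact zero_lt_one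
      · have h2 : 1 < ‖τ (x 0 / x 1)‖ := by
          by_contra h2
          exact hb' ⟨h1, not_lt.1 h2⟩
        have h4 : x 0 / x 1 ≠ 0 := by
          intro h0
          rw [h0, map_zero, norm_zero] at h2
          exact absurd h2 (not_lt.2 zero_le_one)
        have h5 : x 0 ≠ 0 := by
          intro h0
          apply h4
          rw [h0, zero_div]
        refine ⟨h5, ?_, ?_⟩
        · rw [inv_div, mul_div_cancel₀ _ h5]
        · rw [map_inv₀, norm_inv]
          exact inv_lt_one_of_one_lt₀ h2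
    refine ⟨![1, (x 0 / x 1)⁻¹], x 0, h3.1, ?_, ?_, ?_, ?_⟩
    · funext i
      fin_cases i
      · change x 0 = x 0 * 1
        rw [mul_one]
      · exact h3.2.1
    · intro i
      fin_cases i
      · change ‖τ 1‖ ≤ 1
        rw [map_one, norm_one]
      · exact h3.2.2.le
    · intro h0
      have h2 := congrFun h0 0
      change rd τ 1 = 0 at h2
      rw [rd_one] at h2
      exact one_ne_zero h2
    · rw [rp, if_neg hb', pr_inf]
      change rd τ (x 0 / x 1)⁻¹ = 0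
      exact (rd_eq_zero τ h3.2.2.le).2 h3.2.2

end normal

/-- **The core** -/
theorem coreG {m k : ℕ} {d : Fin k → ℕ} (hd : ∀ a, 1 ≤ d a) (F : Fin m → MvPolynomial (Fin m) ℂ)
    (C : Idx d → MvPolynomial (Fin m) ℂ) (π : Fin k → Fin k) (t : Fin m → ℂ) (α : Fin k → Fin 2 → ℂ)
    (hα : ∀ b, α b ≠ 0) (p : ℕ) [hp : Fact p.Prime] (hp3 : 3 ≤ p) (hpD : ∀ a, d a < p)
    (τ : ℂ →+* PadicAlgCl p) (σ : kk p →+* kk p)
    (hF : ∀ i s, coeff s (F i) ∈ Sf τ σ) (hC : ∀ q s, coeff s (C q) ∈ Sf τ σ) (ht : ∀ i, t i ∈ Sf τ σ)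
    (B : Set (MvPolynomial (Fin m) ℂ)) (htB : ∀ g ∈ B, eval t g = 0)
    (hFB : ∀ t : Fin m → ℂ, (∀ g ∈ B, eval t g = 0) → ∀ g ∈ B, eval (ev F t) g = 0)
    (hgood : ∀ t : Fin m → ℂ, (∀ g ∈ B, eval t g = 0) → (∀ i, ‖τ (t i)‖ ≤ 1) → ∀ a (x : Fin 2 → kk p), x ≠ 0 →
      ev (form (fun q => rd τ (at' C t q)) a) x ≠ 0)
    (hJ : ∀ t : Fin m → ℂ, (∀ g ∈ B, eval t g = 0) → (∀ i, ‖τ (t i)‖ ≤ 1) → ‖τ (jac F t).det‖ = 1)
    (hcr : ∀ a b, Adm π a b → ∀ n, (∀ g ∈ B, eval ((ev F)^[n] t) g = 0) → (∀ i, (ev F)^[n] t i ∈ Sf τ σ) →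
      (∀ q, at' C ((ev F)^[n] t) q ∈ Sf τ σ) →
      ∀ x : Fin 2 → kk p, x ≠ 0 → wrh (fun q => rd τ (at' C ((ev F)^[n] t) q)) a x = 0 →
      (Pol C → rp τ (α b) ≠ none → x 1 ≠ 0) → ∀ e, 1 ≤ e → Smooth (Finset.univ.sup d) e → Function.minimalPeriod (Option.map σ) (rp τ (α b)) ≠ e * ol σ x)
    (V : Set (MvPolynomial (Fin m ⊕ Fin k × Fin 2) ℂ)) (hV : ∀ G ∈ V, MH G) : ∃ S : Finset (ℕ × ℕ),
      {n : ℕ | ∀ G ∈ V, eval (Sum.elim ((sysS F C π)^[n] (t, α)).1 fun q =>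
        ((sysS F C π)^[n] (t, α)).2 q.1 q.2) G = 0} = {n | ∃ q ∈ S, ∃ j, n = q.1 + q.2 * j} := by
  classical
  have hcharp : CharP (kk p) p := charP_kk p
  have halg : IsAlgClosed (kk p) := Pool.Agent.Helper46.OB.algClosed_kk p
  have hτF : ∀ i s, ‖τ (coeff s (F i))‖ ≤ 1 := fun i s => ((mem_Sf τ σ).1 (hF i s)).1
  rcases Nat.eq_zero_or_pos k with hk0 | hk0
  · -- no fibre
    subst hk0
    let f : Fin m ⊕ Fin 0 × Fin 2 → Fin 1 × Fin m := Sum.elim (fun i => (0, i)) fun q => q.1.elim0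
    have hinv : ∀ u : List (Fin 1), (∀ i, run (fun _ : Fin 1 => F) u t i ∈ Sf τ σ) ∧
        ∀ g ∈ B, eval (run (fun _ : Fin 1 => F) u t) g = 0 := by
      intro u
      induction u with
      | nil => exact ⟨ht, htB⟩
      | cons a u ih => exact ⟨fun i => eval₂_mem (fun s _ => hF i s) ih.1, hFB _ ih.2⟩
    obtain ⟨S, hS⟩ := engI (fun _ : Fin 1 => F) p hp3 τ (fun _ i s => hτF i s) id (fun _ => t)
      (fun _ i => ((mem_Sf τ σ).1 (ht i)).1) (by
        intro b u _ a _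
        exact hJ _ (hinv u).2 fun i => ((mem_Sf τ σ).1 ((hinv u).1 i)).1) ((rename f) '' V)
    refine ⟨S, ?_⟩
    rw [← hS]
    ext n
    simp only [Set.mem_ofPred_eq, Set.forall_mem_image]
    refine forall₂_congr fun G _ => ?_
    rw [eval_rename]
    have h1 : (fun q : Fin 1 × Fin m => (sysI (fun _ : Fin 1 => F) id)^[n] (fun _ => t) q.1 q.2) ∘ f =
        Sum.elim ((sysS F C π)^[n] (t, α)).1 fun q => ((sysS F C π)^[n] (t, α)).2 q.1 q.2 := by
      funext i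
      rcases i with i | i
      · change (sysI (fun _ : Fin 1 => F) id)^[n] (fun _ => t) 0 i = _
        rw [base_iter F C π t α n]
        rfl
      · exact i.1.elim0
    rw [h1]
  -- the normalised point
  choose β ls hls hαβ hβ1 hβ0 hβr using fun b => exists_prim τ (α b) (hα b)
  have hαβ' : α = fun b i => ls b * β b i := funext hαβ
  have hset : {n : ℕ | ∀ G ∈ V, eval (Sum.elim ((sysS F C π)^[n] (t, α)).1 fun q =>
        ((sysS F C π)^[n] (t, α)).2 q.1 q.2) G = 0} =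
      {n : ℕ | ∀ G ∈ V, eval (Sum.elim ((sysS F C π)^[n] (t, β)).1 fun q =>
        ((sysS F C π)^[n] (t, β)).2 q.1 q.2) G = 0} := by
    ext n
    simp only [Set.mem_ofPred_eq]
    refine forall₂_congr fun G hG => ?_
    rw [hαβ']
    exact set_scale F C π t β ls hls n G (hV G hG)
  rw [hset]
  -- the engine
  let b₀ : Fin k := ⟨0, hk0⟩
  let f : Fin m ⊕ Fin k × Fin 2 → Fin k × (Fin m ⊕ Fin 2) :=
    Sum.elim (fun i => (b₀, Sum.inl i)) fun q => (q.1, Sum.inr q.2)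
  have hPS : ∀ a i s, ‖τ (coeff s (PS F C a i))‖ ≤ 1 := by
    intro a i s
    have h1 : ∀ (Q : MvPolynomial (Fin m) ℂ), (∀ s, coeff s Q ∈ Ot τ) →
        ∀ s, coeff s (rename (Sum.inl : Fin m → Fin m ⊕ Fin 2) Q) ∈ Ot τ := by
      intro Q hQ s
      by_cases hs : ∃ s', Finsupp.mapDomain Sum.inl s' = s
      · obtain ⟨s', rfl⟩ := hs
        rw [coeff_rename_mapDomain _ Sum.inl_injective]
        exact hQ s'
      · rw [coeff_rename_eq_zero]
        · exact zero_mem _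
        · intro u hu
          exact absurd ⟨u, hu⟩ hs
    have h2 : coeff s (PS F C a i) ∈ Ot τ := by
      have h3 : ∀ (Q : MvPolynomial (Fin m) ℂ), (∀ s, coeff s Q ∈ Ot τ) →
          ∃ Q' : MvPolynomial (Fin m ⊕ Fin 2) (Ot τ), map (Ot τ).subtype Q' = rename Sum.inl Q := by
        intro Q hQ
        have h4 : rename Sum.inl Q ∈ Set.range (map (σ := Fin m ⊕ Fin 2) (Ot τ).subtype) := by
          rw [mem_range_map_iff_coeffs_subset]
          intro c hc
          rw [Finset.mem_coe, mem_coeffs_iff] at hc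
          obtain ⟨n, hn, rfl⟩ := hc
          exact ⟨⟨_, h1 Q hQ n⟩, rfl⟩
        exact h4
      rcases i with i | i
      · exact h1 _ (fun s => (mem_Ot τ).2 (hτF i s)) s
      · choose Q' hQ' using fun j : Fin (d a + 1) => h3 (C ⟨a, (i, j)⟩)
          fun s => (mem_Ot τ).2 ((mem_Sf τ σ).1 (hC ⟨a, (i, j)⟩ s)).1
        have h5 : PS F C a (Sum.inr i) = map (Ot τ).subtype (∑ j : Fin (d a + 1),
            Q' j * X (Sum.inr 0) ^ (j : ℕ) * X (Sum.inr 1) ^ (d a - j)) := by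
          change (∑ j : Fin (d a + 1), rename Sum.inl (C ⟨a, (i, j)⟩) * X (Sum.inr 0) ^ (j : ℕ) *
            X (Sum.inr 1) ^ (d a - j) : MvPolynomial (Fin m ⊕ Fin 2) ℂ) = _
          rw [map_sum]
          refine Finset.sum_congr rfl fun j _ => ?_
          rw [map_mul, map_mul, map_pow, map_pow, map_X, map_X, hQ' j]
        rw [h5, coeff_map]
        exact Subtype.prop _
    exact (mem_Ot τ).1 h2
  -- the invariants along the orbit
  have hinv : ∀ b (u : List (Fin k)), ∃ (t' : Fin m → ℂ) (x' : Fin 2 → ℂ),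
      run (PS F C) u (Sum.elim t (β b)) = Sum.elim t' x' ∧ (∀ i, t' i ∈ Sf τ σ) ∧ (∀ g ∈ B, eval t' g = 0) ∧
      (∀ i, ‖τ (x' i)‖ ≤ 1) ∧ (fun i => rd τ (x' i)) ≠ 0 ∧ t' = (ev F)^[u.length] t ∧
      (Pol C → rp τ (α b) ≠ none → rd τ (x' 1) ≠ 0) ∧ ∃ e, 1 ≤ e ∧ Smooth (Finset.univ.sup d) e ∧
        ol σ (fun i => rd τ (β b i)) = e * ol σ (fun i => rd τ (x' i)) := by
    intro b u
    induction u with
    | nil =>
      refine ⟨t, β b, rfl, ht, htB, hβ1 b, hβ0 b, rfl, fun _ h1 h2 => ?_, 1, le_rfl, fun r hr h1 => ?_,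
        (one_mul _).symm⟩
      · rw [← hβr b] at h1
        exact h1 (pr_inf _ h2)
      · exact absurd (Nat.dvd_one.1 h1) hr.ne_one
    | cons a u ih =>
      obtain ⟨t', x', h1, h2, hB', h3, h4, hn, hpl, e₀, he₀, hesm₀, h5⟩ := ih
      have hat : ∀ q, at' C t' q ∈ Sf τ σ := by
        intro q
        exact eval₂_mem (fun s _ => hC q s) h2
      have hat1 : ∀ q, ‖τ (at' C t' q)‖ ≤ 1 := fun q => ((mem_Sf τ σ).1 (hat q)).1
      have hw := rd_word τ (at' C t') hat1 x' h3 [a]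
      rw [ev_word_cons, ev_word_nil, ev_word_cons, ev_word_nil] at hw
      refine ⟨ev F t', ev (form (at' C t') a) x', ?_, ?_, hFB t' hB', hw.1, ?_, ?_, ?_, ?_⟩
      · change evI (PS F C a) (run (PS F C) u (Sum.elim t (β b))) = _
        rw [h1, Pool.Agent.Helper83.OS.evS]
      · intro i
        exact eval₂_mem (fun s _ => hF i s) h2
      · rw [hw.2]
        exact hgood t' hB' (fun i => ((mem_Sf τ σ).1 (h2 i)).1) a _ h4
      · rw [List.length_cons, Function.iterate_succ_apply', hn]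
      · intro hP hr
        rw [ev_pol hP]
        let z' : Ot τ := ⟨x' 1, (mem_Ot τ).2 (h3 1)⟩
        have h6 : rd τ (x' 1 ^ d a) = rd τ (x' 1) ^ d a := by
          change rd τ ((z' ^ d a : Ot τ) : ℂ) = rd τ (z' : ℂ) ^ d a
          rw [rd_coe, rd_coe, map_pow]
        rw [h6]
        exact pow_ne_zero _ (hpl hP hr)
      · obtain ⟨e, he1, hesm, he⟩ := Pool.Agent.Helper46.OB.resdeg' (κ := kk p) σ (Finset.univ.sup d) hd
          (fun a => Finset.le_sup (f := d) (Finset.mem_univ a))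
          (fun q => rd τ (at' C t' q)) (fun q => ((mem_Sf τ σ).1 (hat q)).2)
          (hgood t' hB' (fun i => ((mem_Sf τ σ).1 (h2 i)).1)) [a] (fun i => rd τ (x' i)) h4
        rw [ev_word_cons, ev_word_nil] at he
        refine ⟨e₀ * e, Nat.mul_pos he₀ he1, fun r hr h6 => ?_, ?_⟩
        · rcases (hr.dvd_mul).1 h6 with h7 | h7
          · exact hesm₀ r hr h7
          · exact hesm r hr h7
        · rw [h5, he, hw.2, mul_assoc]
  obtain ⟨S, hS⟩ := engI (PS F C) p hp3 τ hPS π (fun b => Sum.elim t (β b)) (by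
    intro b i
    rcases i with i | i
    · exact ((mem_Sf τ σ).1 (ht i)).1
    · exact hβ1 b i) (by
    intro b u hu a ha
    obtain ⟨t', x', h1, h2, hB', h3, h4, hn, hpl, e, he, hesm, h5⟩ := hinv b u
    have hat : ∀ q, at' C t' q ∈ Sf τ σ := by
      intro q
      exact eval₂_mem (fun s _ => hC q s) h2
    have hat1 : ∀ q, ‖τ (at' C t' q)‖ ≤ 1 := fun q => ((mem_Sf τ σ).1 (hat q)).1
    have hg := hgood t' hB' (fun i => ((mem_Sf τ σ).1 (h2 i)).1)
    change ‖τ (jacI (PS F C a) (run (PS F C) u (Sum.elim t (β b)))).det‖ = 1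
    rw [h1, Pool.Agent.Helper83.OS.detS, map_mul, norm_mul,
      hJ t' hB' (fun i => ((mem_Sf τ σ).1 (h2 i)).1), one_mul]
    obtain ⟨hj1, hj2⟩ := rd_jac τ (at' C t') hat1 x' h3 a
    refine norm_of_rd_ne_zero τ hj1 ?_
    rw [hj2, Pool.Agent.Helper11.OB.jac_det]
    intro h0
    have hda : ((d a : ℕ) : kk p) ≠ 0 := by
      intro h1
      have h2 := (CharP.cast_eq_zero_iff (kk p) p (d a)).1 h1
      have h3 := Nat.le_of_dvd (hd a) h2
      have h4 := hpD a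
      omega
    have hw0 := (mul_eq_zero.1 h0).resolve_left hda
    subst hn
    refine hcr a b ha u.length hB' h2 hat _ h4 hw0 hpl e he hesm ?_
    rw [← hβr b]
    exact h5) ((rename f) '' V)
  refine ⟨S, ?_⟩
  rw [← hS]
  ext n
  simp only [Set.mem_ofPred_eq, Set.forall_mem_image]
  refine forall₂_congr fun G _ => ?_
  rw [eval_rename]
  have h1 : (fun q : Fin k × (Fin m ⊕ Fin 2) =>
      (sysI (PS F C) π)^[n] (fun b => Sum.elim t (β b)) q.1 q.2) ∘ f =
      Sum.elim ((sysS F C π)^[n] (t, β)).1 fun q => ((sysS F C π)^[n] (t, β)).2 q.1 q.2 := by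
    funext i
    rcases i with i | i
    · change (sysI (PS F C) π)^[n] (fun b => Sum.elim t (β b)) b₀ (Sum.inl i) = _
      rw [sysS_iter]
      rfl
    · change (sysI (PS F C) π)^[n] (fun b => Sum.elim t (β b)) i.1 (Sum.inr i.2) = _
      rw [sysS_iter]
      rfl
  rw [h1]

end

end Pool.Agent.Helper26.OS
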