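import Mathlib
import Pool.Agent.Helper26.OS.Core
import Pool.Agent.Helper83.OS.EX
import Pool.Agent.Helper11.OS.GRB
import Pool.Agent.Helper98.OS.JB
import Pool.Agent.Helper98.OS.CP

/-!
# OS: the theorem
-/

set_option autoImplicit false

namespace Pool.Agent.Helper26.OS

open MvPolynomial Pool.Agent.Helper61.TH Pool.Agent.Helper87.FK Pool.Agent.Helper26.OB

noncomputable section

/-- finitely many equations -/
theorem fin_eqs {m : ℕ} (B : Set (MvPolynomial (Fin m) ℂ)) : ∃ B₀ : Finset (MvPolynomial (Fin m) ℂ), (∀ g ∈ B₀, g ∈ B) ∧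
    ∀ t : Fin m → ℂ, (∀ g ∈ B, eval t g = 0) ↔ ∀ g ∈ B₀, eval t g = 0 := by
  have h1 : (Ideal.span B).FG := IsNoetherian.noetherian _
  obtain ⟨B₀, h2, h3⟩ := (Submodule.fg_span_iff_fg_span_finset_subset B).1 h1
  refine ⟨B₀, fun g hg => h2 hg, fun t => ⟨fun h g hg => h g (h2 hg), fun h g hg => ?_⟩⟩
  have h4 : Ideal.span (B₀ : Set (MvPolynomial (Fin m) ℂ)) ≤ RingHom.ker (eval t) :=
    Ideal.span_le.2 fun g hg => RingHom.mem_ker.2 (h g hg)
  have h5 : g ∈ Ideal.span (B₀ : Set (MvPolynomial (Fin m) ℂ)) := by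
    have h6 : g ∈ Submodule.span (MvPolynomial (Fin m) ℂ) B := Submodule.subset_span hg
    rw [h3] at h6
    exact h6
  exact RingHom.mem_ker.1 (h4 h5)

/-- the coordinate `∞` satisfies no condition -/
theorem ne_infty (K : Subfield ℂ) {l : ℕ} (hl : l.Prime) (x : Fin 2 → ℂ)
    (h : Transcendental K (x 0 / x 1) ∨ NumberField K ∧ l ∣ (minpoly K (x 0 / x 1)).natDegree) : x 1 ≠ 0 := by
  intro h0
  rw [h0, div_zero] at h
  rcases h with h | ⟨-, h⟩
  · exact h isAlgebraic_zero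
  · rw [minpoly.zero, Polynomial.natDegree_X] at h
    exact hl.one_lt.ne' (Nat.dvd_one.1 h)

/-- **The theorem** -/
theorem finS
    {m k : ℕ} (K : Subfield ℂ) (B : Set (MvPolynomial (Fin m) ℂ)) (hB : ∀ g ∈ B, ∀ s, coeff s g ∈ K)
    (F : Fin m → MvPolynomial (Fin m) ℂ) (hF : ∀ i s, coeff s (F i) ∈ K)
    (hFB : ∀ t : Fin m → ℂ, (∀ g ∈ B, eval t g = 0) → ∀ g ∈ B, eval (ev F t) g = 0)
    (het : ∀ t : Fin m → ℂ, (∀ g ∈ B, eval t g = 0) → (jac F t).det ≠ 0)
    (d : Fin k → ℕ) (hd : ∀ a, 1 ≤ d a) (C : Idx d → MvPolynomial (Fin m) ℂ) (hC : ∀ q s, coeff s (C q) ∈ K)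
    (hdeg : ∀ t : Fin m → ℂ, (∀ g ∈ B, eval t g = 0) → HasDeg (at' C t)) (π : Fin k → Fin k)
    (t : Fin m → ℂ) (ht : ∀ i, t i ∈ K) (htB : ∀ g ∈ B, eval t g = 0)
    (α : Fin k → Fin 2 → ℂ) (hα : ∀ b, α b ≠ 0)
    (l : ℕ) (hl : l.Prime) (hld : (∀ a, 2 * d a - 2 < l) ∨ Pol C ∧ ∀ a, d a < l) (hk : k ≤ l)
    (h : ∀ b, (∃ a, Adm π a b ∧ 2 ≤ d a) → Transcendental K (α b 0 / α b 1) ∨
      NumberField K ∧ l ∣ (minpoly K (α b 0 / α b 1)).natDegree)
    (V : Set (MvPolynomial (Fin m ⊕ Fin k × Fin 2) ℂ)) (hV : ∀ G ∈ V, MH G) : ∃ S : Finset (ℕ × ℕ),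
      {n : ℕ | ∀ G ∈ V, eval (Sum.elim ((sysS F C π)^[n] (t, α)).1 fun q =>
        ((sysS F C π)^[n] (t, α)).2 q.1 q.2) G = 0} = {n | ∃ q ∈ S, ∃ j, n = q.1 + q.2 * j} := by
  classical
  obtain ⟨B₀, hB₀, hBB⟩ := fin_eqs B
  let T : Finset ℂ := Finset.univ.image t ∪ (Finset.univ.biUnion fun i => (F i).coeffs) ∪
    (Finset.univ.biUnion fun q => (C q).coeffs) ∪ B₀.biUnion fun g => g.coeffs
  have hTt : ∀ i, t i ∈ T := fun i => Finset.mem_union_left _ (Finset.mem_union_left _ (Finset.mem_union_left _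
    (Finset.mem_image_of_mem _ (Finset.mem_univ i))))
  have hTF : ∀ i s, coeff s (F i) ∈ T ∨ coeff s (F i) = 0 := by
    intro i s
    by_cases h0 : coeff s (F i) = 0
    · exact Or.inr h0
    · exact Or.inl (Finset.mem_union_left _ (Finset.mem_union_left _ (Finset.mem_union_right _ (Finset.mem_biUnion.2
        ⟨i, Finset.mem_univ _, mem_coeffs_iff.2 ⟨s, mem_support_iff.2 h0, rfl⟩⟩))))
  have hTC : ∀ q s, coeff s (C q) ∈ T ∨ coeff s (C q) = 0 := by
    intro q s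
    by_cases h0 : coeff s (C q) = 0
    · exact Or.inr h0
    · exact Or.inl (Finset.mem_union_left _ (Finset.mem_union_right _ (Finset.mem_biUnion.2
        ⟨q, Finset.mem_univ _, mem_coeffs_iff.2 ⟨s, mem_support_iff.2 h0, rfl⟩⟩)))
  have hTB : ∀ g ∈ B₀, ∀ s, coeff s g ∈ T ∨ coeff s g = 0 := by
    intro g hg s
    by_cases h0 : coeff s g = 0
    · exact Or.inr h0
    · exact Or.inl (Finset.mem_union_right _ (Finset.mem_biUnion.2
        ⟨g, hg, mem_coeffs_iff.2 ⟨s, mem_support_iff.2 h0, rfl⟩⟩))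
  have hT : ∀ z ∈ T, z ∈ K := by
    intro z hz
    rcases Finset.mem_union.1 hz with hz | hz
    · rcases Finset.mem_union.1 hz with hz | hz
      · rcases Finset.mem_union.1 hz with hz | hz
        · obtain ⟨i, -, rfl⟩ := Finset.mem_image.1 hz
          exact ht i
        · obtain ⟨i, -, hi⟩ := Finset.mem_biUnion.1 hz
          obtain ⟨s, -, rfl⟩ := mem_coeffs_iff.1 hi
          exact hF i s
      · obtain ⟨i, -, hi⟩ := Finset.mem_biUnion.1 hz
        obtain ⟨s, -, rfl⟩ := mem_coeffs_iff.1 hi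
        exact hC i s
    · obtain ⟨g, hg, hi⟩ := Finset.mem_biUnion.1 hz
      obtain ⟨s, -, rfl⟩ := mem_coeffs_iff.1 hi
      exact hB g (hB₀ g hg) s
  obtain ⟨A, hA, hTA, hex⟩ := Pool.Agent.Helper83.OS.exU K T hT (fun b => α b 0 / α b 1)
    (fun b => ∃ a, Adm π a b ∧ 2 ≤ d a) l hl hk h (max (Finset.univ.sup d) 3)
  have hmem : ∀ z, (z ∈ T ∨ z = 0) → z ∈ A := by
    rintro z (hz | rfl)
    · exact hTA z hz
    · exact zero_mem _
  obtain ⟨Z₁, hZ₁, hred⟩ := Pool.Agent.Helper11.OS.redB A hA (B₀ : Set (MvPolynomial (Fin m) ℂ)) (fun g hg s => hmem _ (hTB g hg s)) C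
    (fun q s => hmem _ (hTC q s)) (fun t ht => hdeg t ((hBB t).2 ht))
  obtain ⟨Z₂, hZ₂, hjac⟩ := jacB A hA (B₀ : Set (MvPolynomial (Fin m) ℂ)) (fun g hg s => hmem _ (hTB g hg s)) F
    (fun q s => hmem _ (hTF q s)) (fun t ht => het t ((hBB t).2 ht))
  obtain ⟨p, hp, τ, σ, l', hpN, hUn, hl', hll', hTσ, hb⟩ := hex (Z₁ ∪ Z₂) (by
    intro z hz
    rcases Finset.mem_union.1 hz with hz | hz
    · exact hZ₁ z hz
    · exact hZ₂ z hz)
  have hp3 : 3 ≤ p := (lt_of_le_of_lt (le_max_right _ 3) hpN).le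
  have hpD : ∀ a, d a < p := fun a => lt_of_le_of_lt ((Finset.le_sup (f := d) (Finset.mem_univ a)).trans
    (le_max_left _ 3)) hpN
  have hmemS : ∀ z, (z ∈ T ∨ z = 0) → z ∈ Sf τ σ := by
    rintro z (hz | rfl)
    · exact (mem_Sf τ σ).2 (hTσ z hz)
    · exact zero_mem _
  have hlD : ∀ a, d a < l' := by
    intro a
    rcases hld with h1 | ⟨-, h1⟩
    · have h1 := (h1 a).trans_le hll'
      have h2 := hd a
      have h3 := hl'.two_le
      omega
    · exact (h1 a).trans_le hll'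
  have hgood : ∀ t : Fin m → ℂ, (∀ g ∈ B, eval t g = 0) → (∀ i, ‖τ (t i)‖ ≤ 1) → ∀ a (x : Fin 2 → kk p), x ≠ 0 →
      ev (form (fun q => rd τ (at' C t q)) a) x ≠ 0 := fun t ht =>
    (hred p τ fun z hz => hUn z (Finset.mem_union_left _ hz)).2 t ((hBB t).1 ht)
  have hcharp : CharP (kk p) p := charP_kk p
  have halg : IsAlgClosed (kk p) := Pool.Agent.Helper46.OB.algClosed_kk p
  refine coreG hd F C π t α hα p hp3 hpD τ σ (fun i s => hmemS _ (hTF i s)) (fun q s => hmemS _ (hTC q s))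
    (fun i => hmemS _ (Or.inl (hTt i))) B htB hFB hgood ?_ ?_ V hV
  · intro t ht
    exact hjac p τ (fun z hz => hUn z (Finset.mem_union_right _ hz)) t ((hBB t).1 ht)
  · intro a b hab n hB' h2 hat x hx0 hw hpl e he hesm heq
    have hg := hgood _ hB' (fun i => ((mem_Sf τ σ).1 (h2 i)).1)
    obtain ⟨h6, h7⟩ := Pool.Agent.Helper10.OS.crS p σ (fun q => rd τ (at' C ((ev F)^[n] t) q))
      (fun q => ((mem_Sf τ σ).1 (hat q)).2) a (hd a) (hpD a) (hg a) x hx0 hw
    have hCb : ∃ a, Adm π a b ∧ 2 ≤ d a := ⟨a, hab, by omega⟩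
    have hne := ne_infty K hl (α b) (h b hCb)
    obtain ⟨h8, h9⟩ := hb b hCb
    have h5 : rp τ (α b) = some (rd τ (α b 0 / α b 1)) := by
      rw [rp, if_pos ⟨hne, h8⟩]
    have hub : ol σ x < l' := by
      rcases hld with h1 | ⟨hP, h1⟩
      · have h1 := (h1 a).trans_le hll'
        omega
      · have hx1 : x 1 ≠ 0 := hpl hP (by rw [h5]; exact Option.some_ne_none _)
        have h10 := crP p σ (fun q => rd τ (at' C ((ev F)^[n] t) q))
          (fun q => ((mem_Sf τ σ).1 (hat q)).2) a (hd a) (hpD a) (fun j => ?_) (hg a) x hx1 hw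
        · have h1 := (h1 a).trans_le hll'
          omega
        · change rd τ (eval ((ev F)^[n] t) (C ⟨a, (1, j)⟩)) = _
          rw [hP]
          split_ifs
          · rw [map_one, rd_one]
          · rw [map_zero, rd_zero]
    have hpos : 0 < Function.minimalPeriod (Option.map σ) (rp τ (α b)) := by
      rw [heq]
      exact Nat.mul_pos he h6
    have h10 : l' ∣ Function.minimalPeriod (Option.map σ) (rp τ (α b)) := by
      refine h9 _ hpos ?_
      have h4 : (Option.map σ)^[Function.minimalPeriod (Option.map σ) (rp τ (α b))] (rp τ (α b)) =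
          rp τ (α b) := Function.isPeriodicPt_minimalPeriod _ _
      rw [h5, option_iterate, Option.some_inj] at h4
      rw [h5]
      exact h4
    rw [heq] at h10
    rcases hl'.dvd_mul.1 h10 with h11 | h11
    · have h12 : Finset.univ.sup d < l' := (Finset.sup_lt_iff hl'.pos).2 fun a _ => hlD a
      exact absurd (hesm l' hl' h11) (not_le.2 h12)
    · exact absurd (Nat.le_of_dvd h6 h11) (not_le.2 hub)

end

end Pool.Agent.Helper26.OS
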