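import Mathlib
import Pool.Agent.Helper26.OS.Fin
import Pool.Agent.Helper83.OS.EN
import Pool.Agent.Helper98.OS.CL

/-!
# OS: the criterion with orbit lengths
-/

set_option autoImplicit false

namespace Pool.Agent.Helper26.OS

open MvPolynomial Pool.Agent.Helper61.TH Pool.Agent.Helper87.FK Pool.Agent.Helper26.OB

noncomputable section

/-- the finite set of the data -/
theorem exists_T {m k : ℕ} {d : Fin k → ℕ} (K : Subfield ℂ) (B : Set (MvPolynomial (Fin m) ℂ))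
    (hB : ∀ g ∈ B, ∀ s, coeff s g ∈ K) (F : Fin m → MvPolynomial (Fin m) ℂ) (hF : ∀ i s, coeff s (F i) ∈ K)
    (C : Idx d → MvPolynomial (Fin m) ℂ) (hC : ∀ q s, coeff s (C q) ∈ K) (t : Fin m → ℂ) (ht : ∀ i, t i ∈ K) :
    ∃ (T : Finset ℂ) (B₀ : Finset (MvPolynomial (Fin m) ℂ)), (∀ z ∈ T, z ∈ K) ∧ (∀ i, t i ∈ T) ∧
      (∀ i s, coeff s (F i) ∈ T ∨ coeff s (F i) = 0) ∧ (∀ q s, coeff s (C q) ∈ T ∨ coeff s (C q) = 0) ∧
      (∀ g ∈ B₀, ∀ s, coeff s g ∈ T ∨ coeff s g = 0) ∧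
      ∀ t : Fin m → ℂ, (∀ g ∈ B, eval t g = 0) ↔ ∀ g ∈ B₀, eval t g = 0 := by
  classical
  obtain ⟨B₀, hB₀, hBB⟩ := fin_eqs B
  let T : Finset ℂ := Finset.univ.image t ∪ (Finset.univ.biUnion fun i => (F i).coeffs) ∪
    (Finset.univ.biUnion fun q => (C q).coeffs) ∪ B₀.biUnion fun g => g.coeffs
  refine ⟨T, B₀, ?_, ?_, ?_, ?_, ?_, hBB⟩
  · intro z hz
    rcases Finset.mem_union.1 hz with hz | hz
    · rcases Finset.mem_union.1 hz with hz | hz
      · rcases Finset.mem_union.1 hz with hz | hz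
        · obtain ⟨i, -, rfl⟩ := Finset.mem_image.1 hz
          exact ht i
        · obtain ⟨i, -, hi⟩ := Finset.mem_biUnion.1 hz
          obtain ⟨s, -, rfl⟩ := mem_coeffs_iff.1 hi
          exact hF i s
      · obtain ⟨i, -, hi⟩ := Finset.mem_biUnion.1 hz
        obtain ⟨s, -, rfl⟩ := mem_coeffs_iff.1 hi
        exact hC i s
    · obtain ⟨g, hg, hi⟩ := Finset.mem_biUnion.1 hz
      obtain ⟨s, -, rfl⟩ := mem_coeffs_iff.1 hi
      exact hB g (hB₀ g hg) s
  · intro i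
    exact Finset.mem_union_left _ (Finset.mem_union_left _ (Finset.mem_union_left _
      (Finset.mem_image_of_mem _ (Finset.mem_univ i))))
  · intro i s
    by_cases h0 : coeff s (F i) = 0
    · exact Or.inr h0
    · exact Or.inl (Finset.mem_union_left _ (Finset.mem_union_left _ (Finset.mem_union_right _ (Finset.mem_biUnion.2
        ⟨i, Finset.mem_univ _, mem_coeffs_iff.2 ⟨s, mem_support_iff.2 h0, rfl⟩⟩))))
  · intro q s
    by_cases h0 : coeff s (C q) = 0
    · exact Or.inr h0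
    · exact Or.inl (Finset.mem_union_left _ (Finset.mem_union_right _ (Finset.mem_biUnion.2
        ⟨q, Finset.mem_univ _, mem_coeffs_iff.2 ⟨s, mem_support_iff.2 h0, rfl⟩⟩)))
  · intro g hg s
    by_cases h0 : coeff s g = 0
    · exact Or.inr h0
    · exact Or.inl (Finset.mem_union_right _ (Finset.mem_biUnion.2
        ⟨g, hg, mem_coeffs_iff.2 ⟨s, mem_support_iff.2 h0, rfl⟩⟩))

/-- critical points are algebraic -/
theorem alg_crit {k : ℕ} {d : Fin k → ℕ} (K : Subfield ℂ) [NumberField K] (c : Idx d → ℂ) (hc : ∀ q, c q ∈ K)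
    (hdeg : HasDeg c) (a : Fin k) (hd : 1 ≤ d a) (x : Fin 2 → ℂ) (hw : wrh c a x = 0) :
    IsAlgebraic ℚ (x 0 / x 1) := by
  classical
  by_cases hx1 : x 1 = 0
  · rw [hx1, div_zero]
    exact isAlgebraic_zero
  have hW := Pool.Agent.Helper10.OB.wp_ne_zero c hdeg a hd
  have h0 : (Pool.Agent.Helper10.OB.wp c a).eval (x 0 / x 1) = 0 := by
    have h3 := Pool.Agent.Helper10.OB.eval_wp c a (fun i => (x 1)⁻¹ * x i) (inv_mul_cancel₀ hx1)
    rw [Pool.Agent.Helper10.OB.wrh_smul, hw, mul_zero] at h3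
    rw [div_eq_inv_mul]
    exact h3
  let P : Polynomial K := ∑ i : Fin (d a + 1), ∑ j : Fin (d a + 1),
    Polynomial.C (((i : ℕ) - (j : ℕ) : K) * ⟨c ⟨a, (0, i)⟩, hc _⟩ * ⟨c ⟨a, (1, j)⟩, hc _⟩) *
      Polynomial.X ^ ((i : ℕ) + j - 1)
  have hP : P.map (algebraMap K ℂ) = Pool.Agent.Helper10.OB.wp c a := by
    rw [Pool.Agent.Helper10.OB.wp, Polynomial.map_sum]
    refine Finset.sum_congr rfl fun i _ => ?_
    rw [Polynomial.map_sum]
    refine Finset.sum_congr rfl fun j _ => ?_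
    have h5 : (algebraMap K ℂ) (((i : ℕ) - (j : ℕ) : K) * ⟨c ⟨a, (0, i)⟩, hc _⟩ * ⟨c ⟨a, (1, j)⟩, hc _⟩) =
        ((i : ℕ) - (j : ℕ) : ℂ) * c ⟨a, (0, i)⟩ * c ⟨a, (1, j)⟩ := by
      rw [map_mul, map_mul, map_sub, map_natCast, map_natCast]
      rfl
    rw [Polynomial.map_mul, Polynomial.map_C, Polynomial.map_pow, Polynomial.map_X, h5]
  have h1 : IsAlgebraic K (x 0 / x 1) := by
    refine ⟨P, fun h => hW ?_, ?_⟩
    · rw [← hP, h, Polynomial.map_zero]
    · rw [Polynomial.aeval_def, ← Polynomial.eval_map, hP, h0]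
  exact (isAlgebraic_iff_isIntegral.2 (isIntegral_trans (R := ℚ) (A := K) _ (isAlgebraic_iff_isIntegral.1 h1)))

/-- periods of residues -/
theorem per_eq {p : ℕ} [Fact p.Prime] (τ : ℂ →+* PadicAlgCl p) (σ : ℂ →+* ℂ) (σ' : kk p →+* kk p) (z : ℂ)
    (h : ∀ m : ℕ, σ'^[m] (rd τ z) = rd τ z ↔ σ^[m] z = z) :
    Function.minimalPeriod (Option.map σ') (some (rd τ z)) = Function.minimalPeriod (Option.map σ) (some z) := by
  rw [Function.minimalPeriod_eq_minimalPeriod_iff]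
  intro n
  unfold Function.IsPeriodicPt Function.IsFixedPt
  rw [option_iterate, option_iterate, Option.some_inj, Option.some_inj]
  exact h n

theorem per_none {X : Type*} (f : X → X) : Function.minimalPeriod (Option.map f) (none : Option X) = 1 :=
  Function.minimalPeriod_eq_one_iff_isFixedPt.2 rfl

/-- **The criterion** -/
theorem finO
    {m k : ℕ} (K : Subfield ℂ) (hK : NumberField K) (B : Set (MvPolynomial (Fin m) ℂ)) (hB : ∀ g ∈ B, ∀ s, coeff s g ∈ K)
    (F : Fin m → MvPolynomial (Fin m) ℂ) (hF : ∀ i s, coeff s (F i) ∈ K)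
    (hFB : ∀ t : Fin m → ℂ, (∀ g ∈ B, eval t g = 0) → ∀ g ∈ B, eval (ev F t) g = 0)
    (het : ∀ t : Fin m → ℂ, (∀ g ∈ B, eval t g = 0) → (jac F t).det ≠ 0)
    (d : Fin k → ℕ) (hd : ∀ a, 1 ≤ d a) (C : Idx d → MvPolynomial (Fin m) ℂ) (hC : ∀ q s, coeff s (C q) ∈ K)
    (hdeg : ∀ t : Fin m → ℂ, (∀ g ∈ B, eval t g = 0) → HasDeg (at' C t)) (π : Fin k → Fin k)
    (t : Fin m → ℂ) (ht : ∀ i, t i ∈ K) (htB : ∀ g ∈ B, eval t g = 0)
    (α : Fin k → Fin 2 → ℂ) (hα : ∀ b, α b ≠ 0) (σ : ℂ ≃+* ℂ) (hσ : ∀ z ∈ K, σ z = z)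
    (hS : {z : ℂ | ∃ (n : ℕ) (a : Fin k) (x : Fin 2 → ℂ), x ≠ 0 ∧ wrh (at' C ((ev F)^[n] t)) a x = 0 ∧
      z = x 0 / x 1}.Finite)
    (h : ∀ a b, Adm π a b → IsAlgebraic ℚ (α b 0 / α b 1) → ∀ (n : ℕ) (x : Fin 2 → ℂ), x ≠ 0 →
      wrh (at' C ((ev F)^[n] t)) a x = 0 → (Pol C → α b 1 ≠ 0 → x 1 ≠ 0) →
      ∀ e, Smooth (Finset.univ.sup d) e → ol (σ : ℂ →+* ℂ) (α b) ≠ e * ol (σ : ℂ →+* ℂ) x)
    (V : Set (MvPolynomial (Fin m ⊕ Fin k × Fin 2) ℂ)) (hV : ∀ G ∈ V, MH G) : ∃ S : Finset (ℕ × ℕ),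
      {n : ℕ | ∀ G ∈ V, eval (Sum.elim ((sysS F C π)^[n] (t, α)).1 fun q =>
        ((sysS F C π)^[n] (t, α)).2 q.1 q.2) G = 0} = {n | ∃ q ∈ S, ∃ j, n = q.1 + q.2 * j} := by
  classical
  obtain ⟨T, B₀, hT, hTt, hTF, hTC, hTB, hBB⟩ := exists_T K B hB F hF C hC t ht
  -- the orbit of the base point
  have horb : ∀ n, (∀ g ∈ B, eval ((ev F)^[n] t) g = 0) ∧ ∀ i, (ev F)^[n] t i ∈ K := by
    intro n
    induction n with
    | zero => exact ⟨htB, ht⟩
    | succ n ih =>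
      rw [Function.iterate_succ_apply']
      exact ⟨hFB _ ih.1, fun i => eval₂_mem (fun s _ => hF i s) ih.2⟩
  have hatK : ∀ n q, at' C ((ev F)^[n] t) q ∈ K := fun n q => eval₂_mem (fun s _ => hC q s) (horb n).2
  obtain ⟨A, hA, -, hTA, hAt⟩ := exists_closed K (T : Set ℂ) T.countable_toSet hT
  have hAalg : ∀ z ∈ A, IsAlgebraic ℚ z := by
    intro z hz
    by_contra hcon
    refine hAt z (fun h1 => hcon ?_) hz
    exact (isAlgebraic_iff_isIntegral.2 (isIntegral_trans (R := ℚ) (A := K) _ (isAlgebraic_iff_isIntegral.1 h1)))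
  have hmem : ∀ z, (z ∈ T ∨ z = 0) → z ∈ A := by
    rintro z (hz | rfl)
    · exact hTA hz
    · exact zero_mem _
  obtain ⟨Z₁, hZ₁, hred⟩ := Pool.Agent.Helper11.OS.redB A hA (B₀ : Set (MvPolynomial (Fin m) ℂ))
    (fun g hg s => hmem _ (hTB g hg s)) C (fun q s => hmem _ (hTC q s)) (fun t ht => hdeg t ((hBB t).2 ht))
  obtain ⟨Z₂, hZ₂, hjac⟩ := jacB A hA (B₀ : Set (MvPolynomial (Fin m) ℂ)) (fun g hg s => hmem _ (hTB g hg s)) F
    (fun q s => hmem _ (hTF q s)) (fun t ht => het t ((hBB t).2 ht))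
  let zz : Fin k → ℂ := fun b => α b 0 / α b 1
  let Z : Finset ℂ := Z₁ ∪ Z₂ ∪ T ∪ hS.toFinset ∪ (Finset.univ.filter fun b => IsAlgebraic ℚ (zz b)).image zz
  have hZ : ∀ z ∈ Z, IsAlgebraic ℚ z := by
    intro z hz
    rcases Finset.mem_union.1 hz with hz | hz
    · rcases Finset.mem_union.1 hz with hz | hz
      · rcases Finset.mem_union.1 hz with hz | hz
        · rcases Finset.mem_union.1 hz with hz | hz
          · exact hAalg z (hZ₁ z hz)
          · exact hAalg z (hZ₂ z hz)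
        · exact hAalg z (hTA hz)
      · obtain ⟨n, a, x, hx0, hw, rfl⟩ := hS.mem_toFinset.1 hz
        exact alg_crit K _ (hatK n) (hdeg _ (horb n).1) a (hd a) x hw
    · obtain ⟨b, hb, rfl⟩ := Finset.mem_image.1 hz
      exact (Finset.mem_filter.1 hb).2
  have hZ₁Z : ∀ z ∈ Z₁, z ∈ Z := fun z hz => Finset.mem_union_left _ (Finset.mem_union_left _
    (Finset.mem_union_left _ (Finset.mem_union_left _ hz)))
  have hZ₂Z : ∀ z ∈ Z₂, z ∈ Z := fun z hz => Finset.mem_union_left _ (Finset.mem_union_left _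
    (Finset.mem_union_left _ (Finset.mem_union_right _ hz)))
  have hTZ : ∀ z ∈ T, z ∈ Z := fun z hz => Finset.mem_union_left _ (Finset.mem_union_left _
    (Finset.mem_union_right _ hz))
  have hSZ : ∀ z ∈ hS.toFinset, z ∈ Z := fun z hz => Finset.mem_union_left _ (Finset.mem_union_right _ hz)
  have hzzZ : ∀ b, IsAlgebraic ℚ (zz b) → zz b ∈ Z := fun b hb => Finset.mem_union_right _
    (Finset.mem_image.2 ⟨b, Finset.mem_filter.2 ⟨Finset.mem_univ _, hb⟩, rfl⟩)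
  obtain ⟨p, hp, τ, σ', l', hpN, hlN, hl', hUn, hper, htr⟩ := Pool.Agent.Helper83.OS.exN σ Z hZ zz
    (max (2 * Finset.univ.sup d) 3)
  have hcharp : CharP (kk p) p := charP_kk p
  have halg : IsAlgClosed (kk p) := Pool.Agent.Helper46.OB.algClosed_kk p
  have hp3 : 3 ≤ p := (lt_of_le_of_lt (le_max_right _ 3) hpN).le
  have hdD : ∀ a, d a ≤ Finset.univ.sup d := fun a => Finset.le_sup (f := d) (Finset.mem_univ a)
  have hpD : ∀ a, d a < p := by
    intro a
    have h1 := hdD a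
    have h2 := lt_of_le_of_lt (le_max_left _ 3) hpN
    omega
  have hlD : 2 * Finset.univ.sup d < l' := lt_of_le_of_lt (le_max_left _ 3) hlN
  have hmemS : ∀ z, (z ∈ T ∨ z = 0) → z ∈ Sf τ σ' := by
    rintro z (hz | rfl)
    · refine (mem_Sf τ σ').2 ⟨(hUn z (hTZ z hz)).1, ?_⟩
      exact (hper z (hTZ z hz) 1).2 (hσ z (hT z hz))
    · exact zero_mem _
  have hgood : ∀ t : Fin m → ℂ, (∀ g ∈ B, eval t g = 0) → (∀ i, ‖τ (t i)‖ ≤ 1) → ∀ a (x : Fin 2 → kk p), x ≠ 0 →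
      ev (form (fun q => rd τ (at' C t q)) a) x ≠ 0 := fun t ht =>
    (hred p τ fun z hz => hUn z (hZ₁Z z hz)).2 t ((hBB t).1 ht)
  refine coreG hd F C π t α hα p hp3 hpD τ σ' (fun i s => hmemS _ (hTF i s)) (fun q s => hmemS _ (hTC q s))
    (fun i => hmemS _ (Or.inl (hTt i))) B htB hFB hgood ?_ ?_ V hV
  · intro t ht
    exact hjac p τ (fun z hz => hUn z (hZ₂Z z hz)) t ((hBB t).1 ht)
  · intro a b hab n hB' h2 hat x hx0 hw hpl e he hesm heq
    have hg := hgood _ hB' (fun i => ((mem_Sf τ σ').1 (h2 i)).1) a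
    by_cases hb : IsAlgebraic ℚ (zz b)
    · -- algebraic coordinates
      obtain ⟨y, hy0, hyw, hy1, hy2⟩ := critLift τ (at' C ((ev F)^[n] t)) (fun q => ((mem_Sf τ σ').1 (hat q)).1) a
        (hd a) (hpD a) hg x hx0 hw
      have holx : ol σ' x = ol (σ : ℂ →+* ℂ) y := by
        by_cases hy : y 1 = 0
        · unfold ol
          rw [hy1 hy, pr_inf y hy, per_none, per_none]
        · have hyS : y 0 / y 1 ∈ Z := hSZ _ (hS.mem_toFinset.2 ⟨n, a, y, hy0, hyw, rfl⟩)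
          have h3 : pr y = some (y 0 / y 1) := by
            unfold pr
            rw [if_neg hy]
          unfold ol
          rw [hy2 hy (hUn _ hyS).1, h3]
          exact per_eq τ (σ : ℂ →+* ℂ) σ' _ (hper _ hyS)
      have hola : Function.minimalPeriod (Option.map σ') (rp τ (α b)) = ol (σ : ℂ →+* ℂ) (α b) := by
        by_cases hα1 : α b 1 = 0
        · rw [rp, if_neg (fun h3 => h3.1 hα1), ol, pr_inf _ hα1, per_none, per_none]
        · have h3 : pr (α b) = some (zz b) := by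
            unfold pr
            rw [if_neg hα1]
          rw [rp, if_pos ⟨hα1, (hUn _ (hzzZ b hb)).1⟩, ol, h3]
          exact per_eq τ (σ : ℂ →+* ℂ) σ' _ (hper _ (hzzZ b hb))
      rw [holx, hola] at heq
      refine h a b hab hb n y hy0 hyw (fun hP hα1 hy => ?_) e hesm heq
      have h3 : rp τ (α b) ≠ none := by
        rw [rp, if_pos ⟨hα1, (hUn _ (hzzZ b hb)).1⟩]
        exact Option.some_ne_none _
      have h4 := hy1 hy
      unfold pr at h4
      rw [if_neg (hpl hP h3)] at h4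
      exact absurd h4 (Option.some_ne_none _)
    · -- transcendental coordinates
      have hα1 : α b 1 ≠ 0 := by
        intro h3
        apply hb
        change IsAlgebraic ℚ (α b 0 / α b 1)
        rw [h3, div_zero]
        exact isAlgebraic_zero
      obtain ⟨h6, h7⟩ := Pool.Agent.Helper10.OS.crS p σ' (fun q => rd τ (at' C ((ev F)^[n] t) q))
        (fun q => ((mem_Sf τ σ').1 (hat q)).2) a (hd a) (hpD a) hg x hx0 hw
      obtain ⟨h8, h9⟩ := htr b hb
      have hpos : 0 < Function.minimalPeriod (Option.map σ') (rp τ (α b)) := by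
        rw [heq]
        exact Nat.mul_pos he h6
      have h10 : l' ∣ Function.minimalPeriod (Option.map σ') (rp τ (α b)) := by
        refine h9 _ hpos ?_
        have h4 : (Option.map σ')^[Function.minimalPeriod (Option.map σ') (rp τ (α b))] (rp τ (α b)) =
            rp τ (α b) := Function.isPeriodicPt_minimalPeriod _ _
        have h5 : rp τ (α b) = some (rd τ (zz b)) := by
          rw [rp, if_pos ⟨hα1, h8⟩]
        rw [h5, option_iterate, Option.some_inj] at h4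
        rw [h5]
        exact h4
      rw [heq] at h10
      have h13 := hdD a
      rcases hl'.dvd_mul.1 h10 with h11 | h11
      · have h12 := hesm l' hl' h11
        omega
      · have h12 := Nat.le_of_dvd h6 h11
        omega

end

end Pool.Agent.Helper26.OS
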