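import Pool.Agent.Helper26.OS.FinO

/-!
# OS: the theorem in the form of the result file
-/

set_option autoImplicit false

namespace Pool.Agent.Helper26.OS

open MvPolynomial Pool.Agent.Helper61.TH Pool.Agent.Helper87.FK Pool.Agent.Helper26.OB

noncomputable section

theorem sysS_eq {m k : ℕ} {d : Fin k → ℕ} (F : Fin m → MvPolynomial (Fin m) ℂ)
    (C : Idx d → MvPolynomial (Fin m) ℂ) (π : Fin k → Fin k) :
    (fun z : (Fin m → ℂ) × (Fin k → Fin 2 → ℂ) => ((fun i => eval z.1 (F i) : Fin m → ℂ),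
      (fun a i => ∑ j : Fin (d a + 1), eval z.1 (C ⟨a, (i, j)⟩) * z.2 (π a) 0 ^ (j : ℕ) *
        z.2 (π a) 1 ^ (d a - j) : Fin k → Fin 2 → ℂ))) = sysS F C π := by
  funext z
  refine Prod.ext rfl ?_
  funext a i
  exact (ev_form (at' C z.1) a (z.2 (π a)) i).symm

theorem formS {m k : ℕ} (K : Subfield ℂ) (B : Set (MvPolynomial (Fin m) ℂ)) (hB : ∀ g ∈ B, ∀ s, coeff s g ∈ K)
    (F : Fin m → MvPolynomial (Fin m) ℂ) (hF : ∀ i s, coeff s (F i) ∈ K)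
    (hFB : ∀ t : Fin m → ℂ, (∀ g ∈ B, eval t g = 0) → ∀ g ∈ B, eval (ev F t) g = 0)
    (het : ∀ t : Fin m → ℂ, (∀ g ∈ B, eval t g = 0) → (jac F t).det ≠ 0)
    (d : Fin k → ℕ) (hd : ∀ a, 1 ≤ d a) (C : Idx d → MvPolynomial (Fin m) ℂ) (hC : ∀ q s, coeff s (C q) ∈ K)
    (hdeg : ∀ t : Fin m → ℂ, (∀ g ∈ B, eval t g = 0) → HasDeg (at' C t)) (π : Fin k → Fin k)
    (t : Fin m → ℂ) (ht : ∀ i, t i ∈ K) (htB : ∀ g ∈ B, eval t g = 0)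
    (α : Fin k → Fin 2 → ℂ) (hα : ∀ b, α b ≠ 0)
    (h : (∃ l : ℕ, l.Prime ∧ ((∀ a, 2 * d a - 2 < l) ∨ Pol C ∧ ∀ a, d a < l) ∧ k ≤ l ∧
        ∀ b, (∃ a, Adm π a b ∧ 2 ≤ d a) → Transcendental K (α b 0 / α b 1) ∨
          NumberField K ∧ l ∣ (minpoly K (α b 0 / α b 1)).natDegree) ∨
      (NumberField K ∧ {z : ℂ | ∃ (n : ℕ) (a : Fin k) (x : Fin 2 → ℂ),
          (x ≠ 0 ∧ wrh (at' C ((ev F)^[n] t)) a x = 0) ∧ z = x 0 / x 1}.Finite ∧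
        ∃ σ : ℂ ≃+* ℂ, (∀ z ∈ K, σ z = z) ∧ ∀ a b, Adm π a b →
        IsAlgebraic ℚ (α b 0 / α b 1) → ∀ (n : ℕ) (x : Fin 2 → ℂ),
        (x ≠ 0 ∧ wrh (at' C ((ev F)^[n] t)) a x = 0) → (Pol C → α b 1 ≠ 0 → x 1 ≠ 0) →
        ∀ e, (∀ r : ℕ, r.Prime → r ∣ e → ∃ a', r ≤ d a') →
          sInf {n | 1 ≤ n ∧ σ^[n] (α b 0) * α b 1 = α b 0 * σ^[n] (α b 1)} ≠
            e * sInf {n | 1 ≤ n ∧ σ^[n] (x 0) * x 1 = x 0 * σ^[n] (x 1)}))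
    (V : Set (MvPolynomial (Fin m ⊕ Fin k × Fin 2) ℂ))
    (hV : ∀ G ∈ V, ∃ g : Fin k → ℕ, ∀ s ∈ G.support, ∀ b, ∑ i, s (Sum.inr (b, i)) = g b) : ∃ S : Finset (ℕ × ℕ),
      {n : ℕ | ∀ G ∈ V, eval (Sum.elim ((sysS F C π)^[n] (t, α)).1 fun q =>
        ((sysS F C π)^[n] (t, α)).2 q.1 q.2) G = 0} = {n | ∃ q ∈ S, ∃ j, n = q.1 + q.2 * j} := by
  classical
  rcases h with ⟨l, hl, hld, hk, h⟩ | ⟨hK, hS, σ, hσ, h⟩
  · exact finS K B hB F hF hFB het d hd C hC hdeg π t ht htB α hα l hl hld hk h V hV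
  · refine finO K hK B hB F hF hFB het d hd C hC hdeg π t ht htB α hα σ hσ ?_ ?_ V hV
    · refine hS.subset ?_
      rintro z ⟨n, a, x, hx0, hw, rfl⟩
      exact ⟨n, a, x, ⟨hx0, hw⟩, rfl⟩
    · intro a b hab halg n x hx0 hw hpl e he heq
      refine h a b hab halg n x ⟨hx0, hw⟩ hpl e (fun r hr hre => ?_) ?_
      · have h1 := he r hr hre
        have h2 : (Finset.univ : Finset (Fin k)).Nonempty := ⟨a, Finset.mem_univ _⟩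
        obtain ⟨a', -, ha'⟩ := Finset.exists_mem_eq_sup _ h2 d
        exact ⟨a', ha' ▸ h1⟩
      · rw [← Pool.Agent.Helper38.OB.ol_eq', ← Pool.Agent.Helper38.OB.ol_eq']
        exact heq

end

end Pool.Agent.Helper26.OS
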