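import Pool.Agent.Helper26.OS.Defs

/-!
# OS: statements of the blocks (not imported by anything)
-/

set_option autoImplicit false

namespace Pool.Agent.Helper26.OS

open MvPolynomial Pool.Agent.Helper61.TH Pool.Agent.Helper87.FK Pool.Agent.Helper26.OB

noncomputable section

/-- **EI** (helper26): the dichotomy along an orbit without critical residues, for any polynomial maps -/
theorem engI {ι : Type} [Fintype ι] [DecidableEq ι] {k : ℕ} (P : Fin k → ι → MvPolynomial ι ℂ) (p : ℕ)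
    [Fact p.Prime] (hp3 : 3 ≤ p) (τ : ℂ →+* PadicAlgCl p) (hP : ∀ b i s, ‖τ (coeff s (P b i))‖ ≤ 1)
    (π : Fin k → Fin k) (Y : Fin k → ι → ℂ) (hY : ∀ b i, ‖τ (Y b i)‖ ≤ 1)
    (H : ∀ b (u : List (Fin k)), (∀ a ∈ u, Adm π a b) → ∀ a, Adm π a b →
      ‖τ (jacI (P a) (run P u (Y b))).det‖ = 1)
    (V : Set (MvPolynomial (Fin k × ι) ℂ)) : ∃ S : Finset (ℕ × ℕ),
      {m : ℕ | ∀ G ∈ V, eval (fun q => (sysI P π)^[m] Y q.1 q.2) G = 0} =
        {m | ∃ q ∈ S, ∃ j, m = q.1 + q.2 * j} := by sorry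

/-- **V1**: values of the letters -/
theorem evS {m k : ℕ} {d : Fin k → ℕ} {R : Type} [CommRing R] (F : Fin m → MvPolynomial (Fin m) R)
    (C : Idx d → MvPolynomial (Fin m) R) (a : Fin k) (t : Fin m → R) (x : Fin 2 → R) :
    evI (PS F C a) (Sum.elim t x) = Sum.elim (ev F t) (ev (form (at' C t) a) x) := by sorry

/-- **V2**: the Jacobian determinant of a letter (block triangular) -/
theorem detS {m k : ℕ} {d : Fin k → ℕ} {R : Type} [CommRing R] (F : Fin m → MvPolynomial (Fin m) R)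
    (C : Idx d → MvPolynomial (Fin m) R) (a : Fin k) (t : Fin m → R) (x : Fin 2 → R) :
    (jacI (PS F C a) (Sum.elim t x)).det = (jac F t).det * (jac (form (at' C t) a) x).det := by sorry

/-- **GR**: good reduction of a family. `F_a(t; x, 1)`, `G_a(t; x, 1)` have no common zero on `A^(m+1)`, so they generate the
unit ideal over the algebraically closed field `A` (Nullstellensatz); so do `F_a(t; 1, y)`, `G_a(t; 1, y)`. `Z`: the
coefficients of the `C q` and of the Bezout identities -/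
theorem redS (A : Subfield ℂ) (hA : ∀ z : ℂ, IsAlgebraic A z → z ∈ A) {m k : ℕ} {d : Fin k → ℕ}
    (C : Idx d → MvPolynomial (Fin m) ℂ) (hC : ∀ q s, coeff s (C q) ∈ A)
    (hdeg : ∀ t : Fin m → ℂ, HasDeg (at' C t)) : ∃ Z : Finset ℂ, (∀ z ∈ Z, z ∈ A) ∧
      ∀ (p : ℕ) [Fact p.Prime] (τ : ℂ →+* PadicAlgCl p), Un τ Z → (∀ q s, ‖τ (coeff s (C q))‖ ≤ 1) ∧
        ∀ t : Fin m → ℂ, (∀ i, ‖τ (t i)‖ ≤ 1) → ∀ a (x : Fin 2 → kk p), x ≠ 0 →
          ev (form (fun q => rd τ (at' C t q)) a) x ≠ 0 := by sorry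

/-- **JS**: the Jacobian determinant of an étale map is a constant -/
theorem jacS (A : Subfield ℂ) {m : ℕ} (F : Fin m → MvPolynomial (Fin m) ℂ) (hF : ∀ i s, coeff s (F i) ∈ A)
    (het : ∀ t, (jac F t).det ≠ 0) : ∃ c ∈ A, c ≠ 0 ∧ ∀ t, (jac F t).det = c := by sorry

/-- **CR**: the orbits of the critical points are short -/
theorem crS {κ : Type} [Field κ] [IsAlgClosed κ] (p : ℕ) [Fact p.Prime] [CharP κ p] (σ : κ →+* κ) {k : ℕ}
    {d : Fin k → ℕ} (c : Idx d → κ) (hc : ∀ q, σ (c q) = c q) (a : Fin k) (hd1 : 1 ≤ d a) (hp : d a < p)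
    (hgood : ∀ x : Fin 2 → κ, x ≠ 0 → ev (form c a) x ≠ 0) (x : Fin 2 → κ) (hx : x ≠ 0) (hw : wrh c a x = 0) :
    1 ≤ ol σ x ∧ ol σ x ≤ 2 * d a - 2 := by sorry

end

end Pool.Agent.Helper26.OS
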