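import Pool.Agent.Helper26.OB.Fin3

/-!
# OS: statement of the block EX (not imported by anything)
-/

set_option autoImplicit false

namespace Pool.Agent.Helper26.OS

open MvPolynomial Pool.Agent.Helper61.TH Pool.Agent.Helper87.FK Pool.Agent.Helper26.OB

noncomputable section

/-- **EX**: the prime number, the embedding and the Frobenius. `A` from `OB.exists_closed K T`. If all `zz b`, `b ∈ Cn`, are
transcendental over `K`: `cassels`, `res_per`, `per_common`, `trans'`, `σ = iterateFrobenius n`, `l' ≥ l` a prime number with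
`l' > n` (as in `Helper26/OB/MD.lean`, `main_of''`, with its arguments as in `Fin2.lean`, `mainC`). Otherwise `K` is a number
field, all elements of `A` are algebraic over `ℚ`, `l' = l`, `σ = frobenius`: `sylow` (as in `Fin2.lean`, `mainN`),
`frob_equiv`, `per_fin`, `trans` (as in `Helper26/OB/M.lean`, `main_of`, with its arguments as in `Fin1.lean`, `main`) -/
theorem exU (K : Subfield ℂ) (T : Finset ℂ) (hT : ∀ z ∈ T, z ∈ K) {k : ℕ} (zz : Fin k → ℂ) (Cn : Fin k → Prop)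
    (l : ℕ) (hl : l.Prime) (hkl : k ≤ l)
    (h : ∀ b, Cn b → Transcendental K (zz b) ∨ NumberField K ∧ l ∣ (minpoly K (zz b)).natDegree) (N₀ : ℕ) :
    ∃ A : Subfield ℂ, (∀ z : ℂ, IsAlgebraic A z → z ∈ A) ∧ (∀ z ∈ T, z ∈ A) ∧
      ∀ Z : Finset ℂ, (∀ z ∈ Z, z ∈ A) → ∃ (p : ℕ) (_ : Fact p.Prime) (τ : ℂ →+* PadicAlgCl p)
        (σ : kk p →+* kk p) (l' : ℕ), N₀ < p ∧ Un τ Z ∧ l'.Prime ∧ l ≤ l' ∧
        (∀ z ∈ T, ‖τ z‖ ≤ 1 ∧ σ (rd τ z) = rd τ z) ∧
        ∀ b, Cn b → ‖τ (zz b)‖ ≤ 1 ∧ ∀ m : ℕ, 1 ≤ m → σ^[m] (rd τ (zz b)) = rd τ (zz b) → l' ∣ m := by sorry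

end

end Pool.Agent.Helper26.OS
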