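import Pool.Agent.Helper26.OS.Defs

/-!
# OS: statements of the blocks over a closed subset `B` of the base (not imported by anything)
-/

set_option autoImplicit false

namespace Pool.Agent.Helper26.OS

open MvPolynomial Pool.Agent.Helper61.TH Pool.Agent.Helper87.FK Pool.Agent.Helper26.OB

noncomputable section

/-- **NS**: Nullstellensatz over the algebraically closed field `A` (apply `MvPolynomial.vanishingIdeal_zeroLocus_eq_radical`
or `Ideal.IsMaximal` form over `A`; `1 ∈ span` gives a finite combination) -/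
theorem nsA (A : Subfield ℂ) (hA : ∀ z : ℂ, IsAlgebraic A z → z ∈ A) {ι : Type} [Finite ι]
    (S : Set (MvPolynomial ι ℂ)) (hS : ∀ g ∈ S, ∀ s, coeff s g ∈ A)
    (h0 : ∀ x : ι → ℂ, ∃ g ∈ S, eval x g ≠ 0) :
    ∃ (Q : Finset (MvPolynomial ι ℂ)) (U : MvPolynomial ι ℂ → MvPolynomial ι ℂ), (∀ g ∈ Q, g ∈ S) ∧
      (∀ g s, coeff s (U g) ∈ A) ∧ ∑ g ∈ Q, U g * g = 1 := by sorry

/-- **GR'**: good reduction of a family over the closed subset `B` of `A^m` (the zero set of the polynomials in `B`): `B`,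
`F_a(t; x, 1)`, `G_a(t; x, 1)` generate the unit ideal of `A[t, x]`, likewise in the other chart -/
theorem redB (A : Subfield ℂ) (hA : ∀ z : ℂ, IsAlgebraic A z → z ∈ A) {m k : ℕ} {d : Fin k → ℕ}
    (B : Set (MvPolynomial (Fin m) ℂ)) (hB : ∀ g ∈ B, ∀ s, coeff s g ∈ A)
    (C : Idx d → MvPolynomial (Fin m) ℂ) (hC : ∀ q s, coeff s (C q) ∈ A)
    (hdeg : ∀ t : Fin m → ℂ, (∀ g ∈ B, eval t g = 0) → HasDeg (at' C t)) : ∃ Z : Finset ℂ, (∀ z ∈ Z, z ∈ A) ∧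
      ∀ (p : ℕ) [Fact p.Prime] (τ : ℂ →+* PadicAlgCl p), Un τ Z → (∀ q s, ‖τ (coeff s (C q))‖ ≤ 1) ∧
        ∀ t : Fin m → ℂ, (∀ g ∈ B, eval t g = 0) → (∀ i, ‖τ (t i)‖ ≤ 1) → ∀ a (x : Fin 2 → kk p), x ≠ 0 →
          ev (form (fun q => rd τ (at' C t q)) a) x ≠ 0 := by sorry

/-- **JS'**: the Jacobian determinant is a unit along the orbits in `B` (`B` and the determinant generate the unit ideal) -/
theorem jacB (A : Subfield ℂ) (hA : ∀ z : ℂ, IsAlgebraic A z → z ∈ A) {m : ℕ}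
    (B : Set (MvPolynomial (Fin m) ℂ)) (hB : ∀ g ∈ B, ∀ s, coeff s g ∈ A)
    (F : Fin m → MvPolynomial (Fin m) ℂ) (hF : ∀ i s, coeff s (F i) ∈ A)
    (het : ∀ t : Fin m → ℂ, (∀ g ∈ B, eval t g = 0) → (jac F t).det ≠ 0) : ∃ Z : Finset ℂ, (∀ z ∈ Z, z ∈ A) ∧
      ∀ (p : ℕ) [Fact p.Prime] (τ : ℂ →+* PadicAlgCl p), Un τ Z → ∀ t : Fin m → ℂ, (∀ g ∈ B, eval t g = 0) →
        (∀ i, ‖τ (t i)‖ ≤ 1) → ‖τ (jac F t).det‖ = 1 := by sorry

end

end Pool.Agent.Helper26.OS
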