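import Pool.Agent.Helper26.OB.Fin3
import Pool.Agent.Helper26.OS.Defs

/-!
# OS: statements of the blocks for the second condition (orbit lengths) (not imported by anything)
-/

set_option autoImplicit false

namespace Pool.Agent.Helper26.OS

open MvPolynomial Pool.Agent.Helper61.TH Pool.Agent.Helper87.FK Pool.Agent.Helper26.OB

noncomputable section

/-- **CL**: critical points of the reduction lift to critical points. The binary form `wrh c a` over `ℂ` is `w` times a product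
of linear forms, which can be chosen primitive under `τ`; its reduction is not zero (`p > d a`, good reduction), so `τ w` is a
unit and the zeros of the reduction are the reductions of the zeros. No finite set is needed -/
theorem critLift {p : ℕ} [Fact p.Prime] (τ : ℂ →+* PadicAlgCl p) {k : ℕ} {d : Fin k → ℕ} (c : Idx d → ℂ)
    (hc : ∀ q, ‖τ (c q)‖ ≤ 1) (a : Fin k) (hd : 1 ≤ d a) (hp : d a < p)
    (hgood : ∀ x : Fin 2 → kk p, x ≠ 0 → ev (form (fun q => rd τ (c q)) a) x ≠ 0) (x : Fin 2 → kk p) (hx : x ≠ 0)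
    (hw : wrh (fun q => rd τ (c q)) a x = 0) : ∃ y : Fin 2 → ℂ, y ≠ 0 ∧ wrh c a y = 0 ∧ (y 1 = 0 → pr x = none) ∧
      (y 1 ≠ 0 → ‖τ (y 0 / y 1)‖ ≤ 1 → pr x = some (rd τ (y 0 / y 1))) := by sorry

/-- **EN**: the embedding for an automorphism (`frob_equiv`, `per_fin`, `trans` as in `Helper26/OB/M.lean`, `main_of`;
`σ' = frobenius`) -/
theorem exN (σ : ℂ ≃+* ℂ) (Z : Finset ℂ) (hZ : ∀ z ∈ Z, IsAlgebraic ℚ z) {k : ℕ} (zz : Fin k → ℂ) (N₀ : ℕ) :
    ∃ (p : ℕ) (_ : Fact p.Prime) (τ : ℂ →+* PadicAlgCl p) (σ' : kk p →+* kk p) (l' : ℕ), N₀ < p ∧ N₀ < l' ∧ l'.Prime ∧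
      Un τ Z ∧ (∀ z ∈ Z, ∀ m : ℕ, σ'^[m] (rd τ z) = rd τ z ↔ σ^[m] z = z) ∧
      ∀ b, ¬ IsAlgebraic ℚ (zz b) → ‖τ (zz b)‖ ≤ 1 ∧
        ∀ m : ℕ, 1 ≤ m → σ'^[m] (rd τ (zz b)) = rd τ (zz b) → l' ∣ m := by sorry

end

end Pool.Agent.Helper26.OS
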