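import Pool.Agent.Helper26.OS.Defs

/-!
# OS: statement of the block CP (not imported by anything)
-/

set_option autoImplicit false

namespace Pool.Agent.Helper26.OS

open MvPolynomial Pool.Agent.Helper61.TH Pool.Agent.Helper87.FK Pool.Agent.Helper26.OB

noncomputable section

/-- **CP**: the orbits of the finite critical points of a polynomial (`G_a = 1`) are shorter than the degree: `x 0 / x 1` is a
root of `∑ i c_i z^(i-1)`, fixed by `σ`, of degree `d a - 1` (`c_(d a) ≠ 0` by good reduction at `![1, 0]`, `d a < p`) -/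
theorem crP {κ : Type} [Field κ] [IsAlgClosed κ] (p : ℕ) [Fact p.Prime] [CharP κ p] (σ : κ →+* κ) {k : ℕ}
    {d : Fin k → ℕ} (c : Idx d → κ) (hc : ∀ q, σ (c q) = c q) (a : Fin k) (hd1 : 1 ≤ d a) (hp : d a < p)
    (hpol : ∀ j : Fin (d a + 1), c ⟨a, (1, j)⟩ = if (j : ℕ) = 0 then 1 else 0)
    (hgood : ∀ x : Fin 2 → κ, x ≠ 0 → ev (form c a) x ≠ 0) (x : Fin 2 → κ) (hx1 : x 1 ≠ 0) (hw : wrh c a x = 0) :
    ol σ x ≤ d a - 1 := by sorry

end

end Pool.Agent.Helper26.OS
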